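import Pool.Agent.J6H86.OracleSim.XRE

set_option autoImplicit false

/-!
# The finite families used in the proof
-/

namespace Pool.Agent.J6H86.OracleSim

open Encodable Primrec

/-- A string with a number (its complexity). -/
abbrev Item := ℕ × Str

/-- A finite list of strings, each with a number. -/
abbrev Tab := List Item

/-! ### Codes of tables and of finite sets of tables -/

/-- Short injective code of a table. -/
def codeT (y : Tab) : Str := y.foldr (fun z acc => true :: enc (bin z.1) (enc z.2 acc)) [false]

lemma codeT_cons (z : Item) (y : Tab) :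
    codeT (z :: y) = true :: enc (bin z.1) (enc z.2 (codeT y)) := rfl

lemma codeT_injective : Function.Injective codeT := by
  intro y
  induction y with
  | nil =>
    intro y' h
    cases y' with
    | nil => rfl
    | cons z' y' => simp [codeT] at h
  | cons z y ih =>
    intro y' h
    cases y' with
    | nil => simp [codeT] at h
    | cons z' y' =>
      rw [codeT_cons, codeT_cons] at h
      simp only [List.cons.injEq, true_and] at h
      obtain ⟨h1, h2⟩ := enc_inj h
      obtain ⟨h3, h4⟩ := enc_inj h2
      rw [ih h4, show z = z' from Prod.ext (bin_injective h1) h3]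

lemma codeT_length (D : ℕ) (y : Tab) (h : ∀ z ∈ y, z.1 ≤ D ∧ z.2.length ≤ D) :
    (codeT y).length ≤ 1 + y.length * (3 + 4 * D) := by
  induction y with
  | nil => simp [codeT]
  | cons z y ih =>
    have h1 := h z (List.mem_cons_self)
    have h2 := ih fun z' hz' => h z' (List.mem_cons_of_mem _ hz')
    rw [codeT_cons]
    simp only [List.length_cons, enc_length]
    have h3 := bin_length_le z.1
    have h4 : Nat.log 2 (z.1 + 1) ≤ z.1 := by
      have : z.1 + 1 < 2 ^ (z.1 + 1) := Nat.lt_two_pow_self
      have := Nat.log_lt_of_lt_pow (by omega) this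
      omega
    have h5 : (y.length + 1) * (3 + 4 * D) = y.length * (3 + 4 * D) + (3 + 4 * D) := by ring
    rw [h5]
    omega

lemma primrec_codeT : Primrec codeT := by
  unfold codeT
  refine Primrec.list_foldr
    (h := fun (_ : Tab) (w : Item × Str) => true :: enc (bin w.1.1) (enc w.1.2 w.2))
    Primrec.id (Primrec.const _) ?_
  have h1 : Primrec fun w : Tab × (Item × Str) =>
      true :: enc (bin w.2.1.1) (enc w.2.1.2 w.2.2) := by
    refine Primrec.list_cons.comp (Primrec.const true) ?_
    refine primrec_enc.comp (primrec_bin.comp ?_) (primrec_enc.comp ?_ ?_)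
    · exact Primrec.fst.comp (Primrec.fst.comp Primrec.snd)
    · exact Primrec.snd.comp (Primrec.fst.comp Primrec.snd)
    · exact Primrec.snd.comp Primrec.snd
  exact h1.to₂

/-- The unary string of length `m`. -/
def una (m : ℕ) : Str := (List.cons true)^[m] []

lemma una_length (m : ℕ) : (una m).length = m := by
  induction m with
  | zero => rfl
  | succ m ih =>
    rw [una, Function.iterate_succ_apply', ← una, List.length_cons, ih]

lemma primrec_una : Primrec una :=
  Primrec.nat_iterate (h := fun _ l => true :: l) Primrec.id (Primrec.const [])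
    (Primrec.list_cons.comp (Primrec.const true) Primrec.snd).to₂

/-! ### Bounds for codes of lists -/

/-- A bound for codes of lists of length at most `m` with entries of code at most `c`. -/
def lb (c m : ℕ) : ℕ := (fun x => Nat.succ (Nat.pair c x))^[m] 0

lemma primrec_lb : Primrec₂ lb := by
  have h : Primrec fun z : ℕ × ℕ => (fun x => Nat.succ (Nat.pair z.1 x))^[z.2] 0 := by
    refine Primrec.nat_iterate (f := fun z : ℕ × ℕ => z.2) (g := fun _ => 0)
      (h := fun z x => Nat.succ (Nat.pair z.1 x)) Primrec.snd (Primrec.const 0) ?_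
    exact (Primrec.succ.comp (Primrec₂.natPair.comp (Primrec.fst.comp Primrec.fst)
      Primrec.snd)).to₂
  exact h.to₂

lemma pair_le_pair {a b c d : ℕ} (h1 : a ≤ c) (h2 : b ≤ d) : Nat.pair a b ≤ Nat.pair c d := by
  have e1 : Nat.pair a b ≤ Nat.pair c b := by
    rcases h1.eq_or_lt with rfl | h
    · exact le_rfl
    · exact (Nat.pair_lt_pair_left b h).le
  have e2 : Nat.pair c b ≤ Nat.pair c d := by
    rcases h2.eq_or_lt with rfl | h
    · exact le_rfl
    · exact (Nat.pair_lt_pair_right c h).le
  exact e1.trans e2

lemma encode_list_le {α : Type} [Encodable α] (c m : ℕ) (l : List α) (hl : l.length ≤ m)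
    (h : ∀ x ∈ l, encode x ≤ c) : encode l ≤ lb c m := by
  induction m generalizing l with
  | zero =>
    have : l = [] := List.length_eq_zero_iff.1 (by omega)
    subst this
    simp [lb]
  | succ m ih =>
    cases l with
    | nil => simp
    | cons x l =>
      rw [Encodable.encode_list_cons, lb, Function.iterate_succ_apply', ← lb]
      refine Nat.succ_le_succ (pair_le_pair (h x (List.mem_cons_self)) ?_)
      refine ih l ?_ fun y hy => h y (List.mem_cons_of_mem _ hy)
      simpa using hl

/-- `y` has at most `L` entries, with numbers and lengths at most `D`. -/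
def TabOK (D L : ℕ) (y : Tab) : Prop := y.length ≤ L ∧ ∀ z ∈ y, z.1 ≤ D ∧ z.2.length ≤ D

/-- Bound for codes of tables. -/
def tabBound (D L : ℕ) : ℕ := lb (Nat.pair D (lb 1 D)) L

lemma encode_tab_le {D L : ℕ} {y : Tab} (h : TabOK D L y) : encode y ≤ tabBound D L := by
  refine encode_list_le _ _ y h.1 ?_
  rintro ⟨a, s⟩ hz
  obtain ⟨h1, h2⟩ := h.2 _ hz
  rw [Encodable.encode_prod_val]
  refine pair_le_pair (by simpa using h1) ?_
  refine encode_list_le 1 D s h2 ?_
  intro b _
  cases b <;> simp

/-- Bound for codes of sets of tables. -/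
def famBound (D L : ℕ) : ℕ := lb (tabBound D L) (tabBound D L + 1)

lemma encode_fam_le {D L : ℕ} {A : List Tab} (hnd : A.Nodup) (h : ∀ y ∈ A, TabOK D L y) :
    encode A ≤ famBound D L := by
  refine encode_list_le _ _ A ?_ fun y hy => encode_tab_le (h y hy)
  have hcard : (A.map (encode : Tab → ℕ)).toFinset.card ≤
      (Finset.range (tabBound D L + 1)).card := by
    refine Finset.card_le_card ?_
    intro x hx
    rw [List.mem_toFinset, List.mem_map] at hx
    obtain ⟨y, hy, rfl⟩ := hx
    rw [Finset.mem_range]
    exact Nat.lt_succ_of_le (encode_tab_le (h y hy))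
  rw [List.toFinset_card_of_nodup (hnd.map encode_injective), List.length_map,
    Finset.card_range] at hcard
  exact hcard

lemma primrec_tabBound : Primrec₂ tabBound := by
  have h : Primrec fun z : ℕ × ℕ => lb (Nat.pair z.1 (lb 1 z.1)) z.2 :=
    primrec_lb.comp (Primrec₂.natPair.comp Primrec.fst
      (primrec_lb.comp (Primrec.const 1) Primrec.fst)) Primrec.snd
  exact h.to₂

lemma primrec_famBound : Primrec₂ famBound := by
  have h : Primrec fun z : ℕ × ℕ => lb (tabBound z.1 z.2) (tabBound z.1 z.2 + 1) := by
    have h1 : Primrec fun z : ℕ × ℕ => tabBound z.1 z.2 := primrec_tabBound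
    exact primrec_lb.comp h1 (Primrec.succ.comp h1)
  exact h.to₂

/-! ### Removing repetitions -/

section ddp

variable {α : Type} [Primcodable α] [DecidableEq α]

/-- Remove repetitions. -/
def ddp (l : List α) : List α := l.foldr (fun x acc => if x ∈ acc then acc else x :: acc) []

omit [Primcodable α] in
lemma ddp_cons (x : α) (l : List α) :
    ddp (x :: l) = if x ∈ ddp l then ddp l else x :: ddp l := rfl

omit [Primcodable α] in
lemma mem_ddp {l : List α} {x : α} : x ∈ ddp l ↔ x ∈ l := by
  induction l with
  | nil => simp [ddp]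
  | cons y l ih =>
    rw [ddp_cons]
    split_ifs with h
    · rw [ih, List.mem_cons]
      constructor
      · intro h'; exact Or.inr h'
      · rintro (rfl | h')
        · exact ih.1 h
        · exact h'
    · rw [List.mem_cons, List.mem_cons, ih]

omit [Primcodable α] in
lemma nodup_ddp (l : List α) : (ddp l).Nodup := by
  induction l with
  | nil => exact List.nodup_nil
  | cons y l ih =>
    rw [ddp_cons]
    split_ifs with h
    · exact ih
    · exact List.nodup_cons.2 ⟨h, ih⟩

omit [Primcodable α] in
lemma ddp_length_of_nodup {l : List α} (h : l.Nodup) : (ddp l).length = l.length := by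
  rw [← List.toFinset_card_of_nodup (nodup_ddp l), ← List.toFinset_card_of_nodup h]
  congr 1
  ext x
  simp [mem_ddp]

omit [Primcodable α] in
lemma length_le_ddp {l l' : List α} (h : l'.Nodup) (hs : ∀ x ∈ l', x ∈ l) :
    l'.length ≤ (ddp l).length := by
  rw [← List.toFinset_card_of_nodup (nodup_ddp l), ← List.toFinset_card_of_nodup h]
  refine Finset.card_le_card fun x hx => ?_
  rw [List.mem_toFinset] at hx ⊢
  exact mem_ddp.2 (hs x hx)

omit [DecidableEq α] in
lemma primrecRel_mem : PrimrecRel fun (l : List α) (x : α) => x ∈ l := by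
  have h := PrimrecRel.exists_mem_list (R := fun a b : α => a = b) Primrec.eq
  refine h.of_eq fun l x => ?_
  simp

lemma primrec_ddp : Primrec (ddp : List α → List α) := by
  unfold ddp
  refine Primrec.list_foldr (h := fun _ w => if w.1 ∈ w.2 then w.2 else w.1 :: w.2)
    Primrec.id (Primrec.const _) ?_
  have h1 : Primrec fun w : List α × (α × List α) =>
      if w.2.1 ∈ w.2.2 then w.2.2 else w.2.1 :: w.2.2 := by
    refine Primrec.ite ?_ (Primrec.snd.comp Primrec.snd)
      (Primrec.list_cons.comp (Primrec.fst.comp Primrec.snd) (Primrec.snd.comp Primrec.snd))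
    exact primrecRel_mem.comp (f := fun w : List α × (α × List α) => w.2.2)
      (g := fun w => w.2.1) (Primrec.snd.comp Primrec.snd) (Primrec.fst.comp Primrec.snd)
  exact h1.to₂

end ddp

/-! ### The family of admissible sets of tables -/

/-- The number of strings with number `a` occurring in the tables of `A`. -/
def cnt1 (A : List Tab) (a : ℕ) : ℕ := (ddp (A.flatten.filter fun z => z.1 = a)).length

/-- The number of tables of `A` containing the item `z`. -/
def cnt2 (A : List Tab) (z : Item) : ℕ := (ddp (A.filter fun y => z ∈ y)).length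

/-- The admissible sets of tables. -/
def Fam (M t : ℕ) (A : List Tab) : Prop :=
  ∀ z ∈ A.flatten, cnt1 A z.1 ≤ 2 ^ (z.1 + 1) ∧ cnt2 A z * 2 ^ z.1 ≤ 2 ^ (M + t + 1)

lemma primrec_cnt1 : Primrec₂ cnt1 := by
  have h : Primrec fun u : List Tab × ℕ =>
      (ddp (u.1.flatten.filter fun z => z.1 = u.2)).length := by
    refine Primrec.list_length.comp (primrec_ddp.comp ?_)
    have h1 : PrimrecRel fun (z : Item) (a : ℕ) => z.1 = a :=
      Primrec.eq.comp (f := fun u : Item × ℕ => u.1.1) (g := fun u => u.2)
        (Primrec.fst.comp Primrec.fst) Primrec.snd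
    have h2 := PrimrecRel.listFilter h1
    exact h2.comp (Primrec.list_flatten.comp Primrec.fst) Primrec.snd
  exact h.to₂

lemma primrec_cnt2 : Primrec₂ cnt2 := by
  have h : Primrec fun u : List Tab × Item =>
      (ddp (u.1.filter fun y => u.2 ∈ y)).length := by
    refine Primrec.list_length.comp (primrec_ddp.comp ?_)
    have h1 : PrimrecRel fun (y : Tab) (z : Item) => z ∈ y := primrecRel_mem
    have h2 := PrimrecRel.listFilter h1
    exact h2.comp Primrec.fst Primrec.snd
  exact h.to₂

lemma primrec_two_pow : Primrec fun n : ℕ => 2 ^ n := by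
  have h : Primrec fun n : ℕ => (fun x => 2 * x)^[n] 1 :=
    Primrec.nat_iterate (h := fun _ x => 2 * x) Primrec.id (Primrec.const 1)
      (Primrec.nat_mul.comp (Primrec.const 2) Primrec.snd).to₂
  refine h.of_eq fun n => ?_
  induction n with
  | zero => rfl
  | succ n ih => rw [Function.iterate_succ_apply', ih, pow_succ]; ring

lemma primrec_fam : PrimrecPred fun u : (ℕ × ℕ) × List Tab => Fam u.1.1 u.1.2 u.2 := by
  let S : Item → (ℕ × ℕ) × List Tab → Prop := fun z u =>
    cnt1 u.2 z.1 ≤ 2 ^ (z.1 + 1) ∧ cnt2 u.2 z * 2 ^ z.1 ≤ 2 ^ (u.1.1 + u.1.2 + 1)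
  have hS : PrimrecRel S := by
    have hz : Primrec fun w : Item × ((ℕ × ℕ) × List Tab) => w.1.1 :=
      Primrec.fst.comp Primrec.fst
    have hA : Primrec fun w : Item × ((ℕ × ℕ) × List Tab) => w.2.2 :=
      Primrec.snd.comp Primrec.snd
    refine PrimrecPred.and ?_ ?_
    · exact Primrec.nat_le.comp
        (f := fun w : Item × ((ℕ × ℕ) × List Tab) => cnt1 w.2.2 w.1.1)
        (g := fun w => 2 ^ (w.1.1 + 1))
        (primrec_cnt1.comp hA hz) (primrec_two_pow.comp (Primrec.succ.comp hz))
    · refine Primrec.nat_le.comp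
        (f := fun w : Item × ((ℕ × ℕ) × List Tab) => cnt2 w.2.2 w.1 * 2 ^ w.1.1)
        (g := fun w => 2 ^ (w.2.1.1 + w.2.1.2 + 1)) ?_ ?_
      · exact Primrec.nat_mul.comp (primrec_cnt2.comp hA Primrec.fst)
          (primrec_two_pow.comp hz)
      · refine primrec_two_pow.comp (Primrec.succ.comp (Primrec.nat_add.comp ?_ ?_))
        · exact Primrec.fst.comp (Primrec.fst.comp Primrec.snd)
        · exact Primrec.snd.comp (Primrec.fst.comp Primrec.snd)
  have h := PrimrecRel.forall_mem_list hS
  exact h.comp (f := fun u : (ℕ × ℕ) × List Tab => u.2.flatten) (g := fun u => u)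
    (Primrec.list_flatten.comp Primrec.snd) Primrec.id

lemma primrec_tabOK : PrimrecPred fun u : (ℕ × ℕ) × Tab => TabOK u.1.1 u.1.2 u.2 := by
  refine PrimrecPred.and ?_ ?_
  · exact Primrec.nat_le.comp (f := fun u : (ℕ × ℕ) × Tab => u.2.length)
      (g := fun u => u.1.2) (Primrec.list_length.comp Primrec.snd)
      (Primrec.snd.comp Primrec.fst)
  · let S : Item → ℕ → Prop := fun z D => z.1 ≤ D ∧ z.2.length ≤ D
    have hS : PrimrecRel S := by
      refine PrimrecPred.and ?_ ?_
      · exact Primrec.nat_le.comp (f := fun u : Item × ℕ => u.1.1) (g := fun u => u.2)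
          (Primrec.fst.comp Primrec.fst) Primrec.snd
      · exact Primrec.nat_le.comp (f := fun u : Item × ℕ => u.1.2.length) (g := fun u => u.2)
          (Primrec.list_length.comp (Primrec.snd.comp Primrec.fst)) Primrec.snd
    have h := PrimrecRel.forall_mem_list hS
    exact h.comp (f := fun u : (ℕ × ℕ) × Tab => u.2) (g := fun u => u.1.1)
      Primrec.snd (Primrec.fst.comp Primrec.fst)

/-- All admissible sets of tables containing `y`, with code at most `b`. -/
noncomputable def famList (b M t : ℕ) (y : Tab) : List (List Tab) := by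
  classical
  exact ((List.range (b + 1)).filterMap (fun i => (decode i : Option (List Tab)))).filter
    (fun A => decide (Fam M t A ∧ y ∈ A))

lemma of_mem_famList {b M t : ℕ} {y : Tab} {A : List Tab} (h : A ∈ famList b M t y) :
    Fam M t A ∧ y ∈ A := by
  classical
  unfold famList at h
  rw [List.mem_filter] at h
  simpa only [decide_eq_true_eq] using h.2

lemma mem_famList {b M t : ℕ} {y : Tab} {A : List Tab} (h1 : encode A ≤ b) (h2 : Fam M t A)
    (h3 : y ∈ A) : A ∈ famList b M t y := by
  classical
  unfold famList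
  rw [List.mem_filter, List.mem_filterMap]
  simp only [List.mem_range, decide_eq_true_eq]
  exact ⟨⟨encode A, by omega, encodek A⟩, h2, h3⟩

lemma primrec_famList : Primrec fun u : (ℕ × (ℕ × ℕ)) × Tab =>
    famList u.1.1 u.1.2.1 u.1.2.2 u.2 := by
  classical
  unfold famList
  let S : List Tab → (ℕ × (ℕ × ℕ)) × Tab → Prop := fun A u => Fam u.1.2.1 u.1.2.2 A ∧ u.2 ∈ A
  have hS : PrimrecRel S := by
    refine PrimrecPred.and ?_ ?_
    · exact primrec_fam.comp (f := fun w : List Tab × ((ℕ × (ℕ × ℕ)) × Tab) =>
        (w.2.1.2, w.1)) (Primrec.pair (Primrec.snd.comp (Primrec.fst.comp Primrec.snd))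
          Primrec.fst)
    · exact primrecRel_mem.comp (f := fun w : List Tab × ((ℕ × (ℕ × ℕ)) × Tab) => w.1)
        (g := fun w => w.2.2) Primrec.fst (Primrec.snd.comp Primrec.snd)
  have h := PrimrecRel.listFilter hS
  have h0 : Primrec fun u : (ℕ × (ℕ × ℕ)) × Tab =>
      (List.range (u.1.1 + 1)).filterMap (fun i => (decode i : Option (List Tab))) := by
    refine Primrec.listFilterMap (f := fun u : (ℕ × (ℕ × ℕ)) × Tab => List.range (u.1.1 + 1))
      (g := fun _ i => (decode i : Option (List Tab))) ?_ (Primrec.decode.comp Primrec.snd).to₂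
    exact Primrec.list_range.comp (Primrec.succ.comp (Primrec.fst.comp Primrec.fst))
  have h9 := Primrec₂.comp (f := fun (L : List (List Tab)) (u : (ℕ × (ℕ × ℕ)) × Tab) =>
    L.filter (fun A => decide (S A u))) h h0 Primrec.id
  refine h9.of_eq fun u => ?_
  exact List.filter_congr fun A _ => decide_eq_decide.2 Iff.rfl

end Pool.Agent.J6H86.OracleSim
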