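import Mathlib

set_option autoImplicit false

/-!
# Plain Kolmogorov complexity, relative to an oracle

Strings are `List Bool`. A decompressor is a partial recursive function taking a program and a
condition to an output; an `X`-decompressor is partial recursive relative to the oracle `X`
(Mathlib's `RecursiveIn`).
-/

namespace Pool.Agent.J6H86.OracleSim

/-- The infinite binary sequence `X`, as a `0/1`-valued function, in the form in which
Mathlib's `RecursiveIn` takes its oracles. -/
def oracleOf (X : ℕ → Bool) : ℕ →. ℕ := fun n => Part.some (X n).toNat

/-- Finite binary strings. -/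
abbrev Str := List Bool

/-- `complexity D x y` is the plain conditional complexity of `x` given `y` with respect to the
decompressor `D`: the least length of a program `p` such that `D` outputs `x` on program `p` and
condition `y`. -/
noncomputable def complexity (D : Str × Str →. Str) (x y : Str) : ℕ :=
  sInf {m : ℕ | ∃ p : Str, p.length = m ∧ x ∈ D (p, y)}

/-- `D` is an optimal conditional decompressor: it is partial recursive, and every partial
recursive `D'` describes things at most a constant better. -/
def IsOptimal (D : Str × Str →. Str) : Prop :=
  Partrec D ∧ ∀ D' : Str × Str →. Str, Partrec D' → ∃ c : ℕ, ∀ p y x : Str,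
    x ∈ D' (p, y) → ∃ p' : Str, p'.length ≤ p.length + c ∧ x ∈ D (p', y)

/-- `D` is an optimal `X`-decompressor: the same definition for partial functions that are
recursive in the oracle `X`. -/
def IsOptimalIn (X : ℕ → Bool) (D : Str × Str →. Str) : Prop :=
  RecursiveIn {oracleOf X} D ∧ ∀ D' : Str × Str →. Str, RecursiveIn {oracleOf X} D' →
    ∃ c : ℕ, ∀ p y x : Str,
      x ∈ D' (p, y) → ∃ p' : Str, p'.length ≤ p.length + c ∧ x ∈ D (p', y)

end Pool.Agent.J6H86.OracleSim
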