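import Pool.Agent.J6H86.OracleSim.Small

set_option autoImplicit false

/-!
# Optimal decompressors exist
-/

namespace Pool.Agent.J6H86.OracleSim

open Encodable Nat.Partrec

/-- One candidate answer of the universal machine. -/
def uCand (σ : List Bool) (z : Str × Str) (u : ℕ × (Str × ℕ)) : Option Str :=
  cond (decide (enc (bin u.1) u.2.1 = z.1))
    ((Code.evaln σ.length (Denumerable.ofNat Code u.1)
      (Nat.pair (encode (σ.take u.2.2)) (encode (u.2.1, z.2)))).bind fun w =>
        ((decode w : Option (Option ℕ)).bind fun o => o.bind fun b => (decode b : Option Str)))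
    none

/-- The universal functional. -/
def uFun (σ : List Bool) (z : Str × Str) : Option Str :=
  ((List.range σ.length).filterMap fun v =>
    (decode v : Option (ℕ × (Str × ℕ))).bind fun u => uCand σ z u).head?

lemma primrec_uFun : Primrec₂ uFun := by
  have h1 : Primrec fun w : (List Bool × (Str × Str)) × (ℕ × (Str × ℕ)) =>
      uCand w.1.1 w.1.2 w.2 := by
    unfold uCand
    have hσ : Primrec fun w : (List Bool × (Str × Str)) × (ℕ × (Str × ℕ)) => w.1.1 :=
      Primrec.fst.comp Primrec.fst
    have hz : Primrec fun w : (List Bool × (Str × Str)) × (ℕ × (Str × ℕ)) => w.1.2 :=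
      Primrec.snd.comp Primrec.fst
    have hc : Primrec fun w : (List Bool × (Str × Str)) × (ℕ × (Str × ℕ)) => w.2.1 :=
      Primrec.fst.comp Primrec.snd
    have hp : Primrec fun w : (List Bool × (Str × Str)) × (ℕ × (Str × ℕ)) => w.2.2.1 :=
      Primrec.fst.comp (Primrec.snd.comp Primrec.snd)
    have ht : Primrec fun w : (List Bool × (Str × Str)) × (ℕ × (Str × ℕ)) => w.2.2.2 :=
      Primrec.snd.comp (Primrec.snd.comp Primrec.snd)
    refine Primrec.cond ?_ ?_ (Primrec.const none)
    · exact PrimrecPred.decide (Primrec.eq.comp (primrec_enc.comp (primrec_bin.comp hc) hp)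
        (Primrec.fst.comp hz))
    · refine Primrec.option_bind ?_ ?_
      · have h2 : Primrec fun w : (List Bool × (Str × Str)) × (ℕ × (Str × ℕ)) =>
            (((w.1.1.length, Denumerable.ofNat Code w.2.1),
              Nat.pair (encode (w.1.1.take w.2.2.2)) (encode (w.2.2.1, w.1.2.2))) :
              (ℕ × Code) × ℕ) := by
          refine Primrec.pair (Primrec.pair (Primrec.list_length.comp hσ)
            ((Primrec.ofNat Code).comp hc)) ?_
          exact Primrec₂.natPair.comp (Primrec.encode.comp (Primrec.list_take.comp ht hσ))
            (Primrec.encode.comp (Primrec.pair hp (Primrec.snd.comp hz)))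
        exact Code.primrec_evaln.comp h2
      · have h3 : Primrec fun v : ℕ => ((decode v : Option (Option ℕ)).bind fun o =>
            o.bind fun b => (decode b : Option Str)) := by
          refine Primrec.option_bind Primrec.decode ?_
          have h4 : Primrec fun o : Option ℕ => o.bind fun b => (decode b : Option Str) :=
            Primrec.option_bind₁ Primrec.decode
          exact (h4.comp Primrec.snd).to₂
        exact (h3.comp Primrec.snd).to₂
  have h5 : Primrec fun w : List Bool × (Str × Str) =>
      (List.range w.1.length).filterMap fun v =>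
        (decode v : Option (ℕ × (Str × ℕ))).bind fun u => uCand w.1 w.2 u := by
    refine Primrec.listFilterMap (f := fun w : List Bool × (Str × Str) =>
      List.range w.1.length) (g := fun w v =>
        (decode v : Option (ℕ × (Str × ℕ))).bind fun u => uCand w.1 w.2 u)
      (Primrec.list_range.comp (Primrec.list_length.comp Primrec.fst)) ?_
    have h6 : Primrec fun s : (List Bool × (Str × Str)) × ℕ =>
        (decode s.2 : Option (ℕ × (Str × ℕ))).bind fun u => uCand s.1.1 s.1.2 u := by
      refine Primrec.option_bind (Primrec.decode.comp Primrec.snd) ?_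
      exact (h1.comp (Primrec.pair (Primrec.fst.comp Primrec.fst) Primrec.snd)).to₂
    exact h6.to₂
  exact (Primrec.list_head?.comp h5).to₂

/-- **Existence of optimal `X`-decompressors.** -/
theorem exists_isOptimalIn (X : ℕ → Bool) : ∃ V, IsOptimalIn X V := by
  refine ⟨fun z => searchFn X uFun z, searchFn_recursiveIn X primrec_uFun, ?_⟩
  intro D' hD'
  obtain ⟨G, h1, h2, h3⟩ := exists_computes hD'
  have hG : Nat.Partrec fun v => Part.some
      (encode (((decode v.unpair.1 : Option (List Bool)).bind fun σ => G σ v.unpair.2))) := by
    have h4 : Primrec fun v : ℕ =>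
        encode ((decode v.unpair.1 : Option (List Bool)).bind fun σ => G σ v.unpair.2) := by
      refine Primrec.encode.comp ?_
      refine Primrec.option_bind (Primrec.decode.comp (Primrec.fst.comp Primrec.unpair)) ?_
      exact (h1.comp Primrec.snd (Primrec.snd.comp (Primrec.unpair.comp Primrec.fst))).to₂
    exact Nat.Partrec.of_primrec (Primrec.nat_iff.1 h4)
  obtain ⟨C, hC⟩ := Code.exists_code.1 hG
  refine ⟨2 * (bin (encode C)).length + 1, ?_⟩
  intro p y x hx
  refine ⟨enc (bin (encode C)) p, by rw [enc_length]; omega, ?_⟩
  -- every candidate answer is `x`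
  have hsound : ∀ t u x', uCand (pre X t) (enc (bin (encode C)) p, y) u = some x' → x' = x := by
    intro t u x' hu
    unfold uCand at hu
    by_cases he : enc (bin u.1) u.2.1 = enc (bin (encode C)) p
    · obtain ⟨e1, e2⟩ := enc_inj he
      have e3 := bin_injective e1
      simp only [he, decide_true, cond_true, Option.bind_eq_some_iff] at hu
      obtain ⟨w, hw, o, ho, b, hb, hx'⟩ := hu
      have hw' := Code.evaln_sound hw
      rw [e3, Denumerable.ofNat_encode, hC] at hw'
      simp only [Nat.unpair_pair, encodek, Option.bind_some, Part.mem_some_iff] at hw'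
      rw [hw', encodek] at ho
      cases ho
      rw [e2] at hb
      have hle : ((pre X t).take u.2.2) = pre X (min u.2.2 t) := by
        rcases le_total u.2.2 t with h | h
        · rw [pre_take X h, min_eq_left h]
        · rw [min_eq_right h, List.take_of_length_le (by simpa using h)]
      rw [hle] at hb
      have hmem := (h3 (encode (p, y)) b).2 ⟨_, hb⟩
      change b ∈ Part.bind ((decode (encode (p, y)) : Option (Str × Str)) : Part (Str × Str))
        (fun a => (D' a).map encode) at hmem
      rw [Part.mem_bind_iff] at hmem
      obtain ⟨a, ha, hb'⟩ := hmem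
      have ha' : a = (p, y) := by simpa using ha
      subst ha'
      rw [Part.mem_map_iff] at hb'
      obtain ⟨x'', hx'', rfl⟩ := hb'
      rw [encodek] at hx'
      cases hx'
      exact Part.mem_unique hx'' hx
    · simp [he] at hu
  have hsound' : ∀ t x', uFun (pre X t) (enc (bin (encode C)) p, y) = some x' → x' = x := by
    intro t x' hx'
    have hmem := List.mem_of_mem_head? hx'
    rw [List.mem_filterMap] at hmem
    obtain ⟨v, _, hv⟩ := hmem
    rw [Option.bind_eq_some_iff] at hv
    obtain ⟨u, _, hu⟩ := hv
    exact hsound t u x' hu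
  -- some candidate answer is found
  have hfound : ∃ t, (uFun (pre X t) (enc (bin (encode C)) p, y)).isSome := by
    have hb : encode x ∈ Part.bind
        ((decode (encode (p, y)) : Option (Str × Str)) : Part (Str × Str))
        (fun a => (D' a).map encode) := by
      rw [Part.mem_bind_iff]
      exact ⟨(p, y), by simp, (Part.mem_map_iff _).2 ⟨x, hx, rfl⟩⟩
    obtain ⟨t, ht⟩ := (h3 (encode (p, y)) (encode x)).1 hb
    have hev : encode (some (encode x)) ∈
        Code.eval C (Nat.pair (encode (pre X t)) (encode (p, y))) := by
      rw [hC]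
      simp only [Nat.unpair_pair, encodek, Option.bind_some, Part.mem_some_iff]
      rw [ht]
    obtain ⟨k, hk⟩ := Code.evaln_complete.1 hev
    refine ⟨max (max t k) (encode (encode C, (p, t)) + 1), ?_⟩
    generalize hT : max (max t k) (encode (encode C, (p, t)) + 1) = T
    have hTt : t ≤ T := by omega
    have hTk : k ≤ T := by omega
    have hTe : encode (encode C, (p, t)) < T := by omega
    unfold uFun
    rw [List.isSome_head?]
    refine List.ne_nil_of_mem (a := x) ?_
    rw [List.mem_filterMap]
    refine ⟨encode (encode C, (p, t)), by simpa using hTe, ?_⟩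
    rw [encodek, Option.bind_some]
    unfold uCand
    simp only [decide_true, cond_true, pre_length, Denumerable.ofNat_encode]
    rw [pre_take X hTt]
    have hk' := Code.evaln_mono hTk hk
    rw [Option.mem_def] at hk'
    rw [hk', Option.bind_some, encodek (some (encode x)), Option.bind_some, Option.bind_some,
      encodek]
  have hdom : (searchFn X uFun (enc (bin (encode C)) p, y)).Dom := by
    unfold searchFn
    rw [Nat.rfindOpt_dom]
    obtain ⟨t, ht⟩ := hfound
    obtain ⟨z, hz⟩ := Option.isSome_iff_exists.1 ht
    exact ⟨t, z, hz⟩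
  have hmem := Part.get_mem hdom
  obtain ⟨t, ht⟩ := Nat.rfindOpt_spec hmem
  rw [hsound' t _ ht] at hmem
  exact hmem

/-- **Existence of optimal decompressors.** -/
theorem exists_isOptimal : ∃ U, IsOptimal U := by
  obtain ⟨U, hU1, hU2⟩ := exists_isOptimalIn fun _ => false
  refine ⟨U, ?_, fun D' hD' => hU2 D' hD'.recursiveIn⟩
  refine hU1.partrec_of_oracle ?_
  intro g hg
  rw [Set.mem_singleton_iff] at hg
  subst hg
  exact oracleOf_false_partrec

end Pool.Agent.J6H86.OracleSim
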