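import Pool.Agent.J6H86.OracleSim.Main

set_option autoImplicit false

/-!
# The theorem, with logarithms in base two
-/

namespace Pool.Agent.J6H86.OracleSim

open Encodable

theorem main {X : ℕ → Bool} {U V : Str × Str →. Str} (hU : IsOptimal U)
    (hV : IsOptimalIn X V) (k : ℕ) : ∃ K : ℕ, ∀ n : ℕ, 2 ≤ n → ∀ S : Finset Str,
      (∀ s ∈ S, s.length ≤ n) → S.card ≤ n ^ k → ∃ x0 : Str, ∀ s ∈ S,
        complexity U s x0 ≤ complexity V s [] + K * Nat.log 2 n ∧
        complexity V s [] ≤ complexity U s x0 + K * Nat.log 2 n := by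
  classical
  have hU' := isOptimalIn_of_isOptimal hU
  obtain ⟨c0, hc0⟩ := trivial_bound hV
  obtain ⟨c1, hc1⟩ := enum_bound hU' xre_rel1 (E := fun x => x) Primrec.id
  obtain ⟨c2, hc2⟩ := enum_bound hU' (xre_rel2 hU'.1) primrec_codeT
  obtain ⟨c3, hc3⟩ := enum_bound hV (xre_rel3 hU.1.recursiveIn hV.1) primrec_codeT
  obtain ⟨c4, hc4⟩ := symmetry hV
  -- exponents
  obtain ⟨κD, hκD⟩ : ∃ κ, κ = 2 + c0 := ⟨_, rfl⟩
  obtain ⟨κL, hκL⟩ : ∃ κ, κ = 2 * k + 1 := ⟨_, rfl⟩
  obtain ⟨κM, hκM⟩ : ∃ κ, κ = (1 + (κL + (3 + (4 + κD)))) + c0 := ⟨_, rfl⟩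
  obtain ⟨κ4, hκ4⟩ : ∃ κ, κ = (κD + (κL + (κM + κD) * 2) * 2) * 2 := ⟨_, rfl⟩
  obtain ⟨κ5, hκ5⟩ : ∃ κ, κ = (κD + (κL + (κM + (κD + (κM + 1)) * 2) * 2) * 2) * 2 := ⟨_, rfl⟩
  obtain ⟨KT, hKT⟩ : ∃ κ, κ = 1 + κL + 2 * κ4 + 2 * κ5 + c4 := ⟨_, rfl⟩
  obtain ⟨κ3, hκ3⟩ : ∃ κ, κ = (κD + (κL + (κM + (κM + (KT + 1)) * 2) * 2) * 2) * 2 := ⟨_, rfl⟩
  obtain ⟨KW, hKW⟩ : ∃ κ, κ = 2 * κ3 + c3 + 1 := ⟨_, rfl⟩
  obtain ⟨κm, hκm⟩ : ∃ κ, κ = κD + 1 + (2 * κD + 1) + c1 := ⟨_, rfl⟩
  refine ⟨(1 + 2 * κD + c1) + (KW + KT + 2 + 2 * ((κD + κm) * 2) + c2), ?_⟩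
  intro n hn S hSn hSk
  obtain ⟨g, hg⟩ : ∃ g, g = Nat.log 2 n := ⟨_, rfl⟩
  have hg1 : 1 ≤ g := by rw [hg]; exact Nat.log_pos (by norm_num) hn
  have hsn : Small g 2 n := by rw [hg]; exact small_n hn
  have hsL : Small g κL (n ^ k) := by rw [hg, hκL]; exact small_pow hn k
  rw [← hg]
  -- the table of `S`
  let f : Str → Item := fun s => (complexity V s [], s)
  let y0 : Tab := S.toList.map f
  obtain ⟨D, hD⟩ : ∃ D, D = n + c0 := ⟨_, rfl⟩
  obtain ⟨L, hL⟩ : ∃ L, L = n ^ k := ⟨_, rfl⟩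
  have hsD : Small g κD D := by
    rw [hD, hκD]; exact hsn.add (Small.const hg1 c0)
  rw [← hL] at hsL hSk
  have hprog : ∀ s : Str, ∃ p : Str, p.length = complexity V s [] ∧ s ∈ V (p, []) := by
    intro s
    obtain ⟨p, _, hp⟩ := hc0 s []
    exact exists_program ⟨p, hp⟩
  have hcomp : ∀ s : Str, complexity V s [] ≤ s.length + c0 := by
    intro s
    obtain ⟨p, hp1, hp2⟩ := hc0 s []
    exact (complexity_le hp2).trans hp1
  have hmem0 : ∀ z ∈ y0, ∃ s ∈ S, z = (complexity V s [], s) := by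
    intro z hz
    rw [List.mem_map] at hz
    obtain ⟨s, hs, rfl⟩ := hz
    exact ⟨s, Finset.mem_toList.1 hs, rfl⟩
  have hok : TabOK D L y0 := by
    refine ⟨by simpa [y0] using hSk, ?_⟩
    intro z hz
    obtain ⟨s, hs, rfl⟩ := hmem0 z hz
    have h1 := hcomp s
    have h2 := hSn s hs
    constructor
    · show complexity V s [] ≤ D
      omega
    · show s.length ≤ D
      omega
  obtain ⟨M, hM⟩ : ∃ M, M = complexity V (codeT y0) [] := ⟨_, rfl⟩
  have hMle : M ≤ (1 + L * (3 + 4 * D)) + c0 := by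
    rw [hM]
    have h1 := hcomp (codeT y0)
    have h2 := codeT_length D y0 hok.2
    have h3 : y0.length * (3 + 4 * D) ≤ L * (3 + 4 * D) := Nat.mul_le_mul_right _ hok.1
    omega
  have hsM : Small g κM M := by
    rw [hκM]
    refine Small.mono ?_ hMle
    exact ((Small.const hg1 1).add (hsL.mul ((Small.const hg1 3).add
      ((Small.const hg1 4).mul hsD)))).add (Small.const hg1 c0)
  have hdesc0 : Desc V 0 M (codeT y0) [] := by
    obtain ⟨p, hp1, hp2⟩ := hprog (codeT y0)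
    exact ⟨p, by omega, hp2⟩
  have hLlam : L ≤ 2 ^ (κL * g) := by
    unfold Small at hsL; omega
  -- the slack in symmetry of information
  obtain ⟨t, ht⟩ : ∃ t, t = KT * g := ⟨_, rfl⟩
  have hsym : ∀ z ∈ y0, Desc V z.1 (M + t) (codeT y0) z.2 := by
    intro z hz
    obtain ⟨s, hs, hzs⟩ := hmem0 z hz
    have haD : z.1 ≤ D := (hok.2 z hz).1
    have hsa : Small g κD z.1 := hsD.mono haD
    obtain ⟨j, hj, p, hp1, hp2⟩ := hc4 D L M (κL * g) z.1 z.2 y0 hLlam hok hz hdesc0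
      (by rw [hzs])
    refine ⟨p, le_trans hp1 ?_, hp2⟩
    have hsj : Small g (κM + 1) j := (hsM.add (Small.const hg1 1)).mono hj
    have h4 : Nat.log 2 (encode (D, L, M, z.1) + 1) ≤ κ4 * g := by
      refine Small.log ?_
      rw [hκ4]
      simp only [Encodable.encode_prod_val, Encodable.encode_nat]
      exact hsD.pair (hsL.pair (hsM.pair hsa))
    have h5 : Nat.log 2 (encode (D, L, M, z.1, j) + 1) ≤ κ5 * g := by
      refine Small.log ?_
      rw [hκ5]
      simp only [Encodable.encode_prod_val, Encodable.encode_nat]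
      exact hsD.pair (hsL.pair (hsM.pair (hsa.pair hsj)))
    have h6 : KT * g = g + κL * g + 2 * (κ4 * g) + 2 * (κ5 * g) + c4 * g := by
      rw [hKT]; ring
    have h7 : c4 ≤ c4 * g := Nat.le_mul_of_pos_right c4 hg1
    omega
  -- the parameters of the bad set
  obtain ⟨l, hl⟩ : ∃ l, l = M - KW * g := ⟨_, rfl⟩
  have hst : Small g (KT + 1) t := by
    rw [ht]; exact (Small.const hg1 KT).mul (Small.self g)
  have hsl : Small g κM l := hsM.mono (by omega)
  have h3log : Nat.log 2 (encode (D, L, M, l, t) + 1) ≤ κ3 * g := by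
    refine Small.log ?_
    rw [hκ3]
    simp only [Encodable.encode_prod_val, Encodable.encode_nat]
    exact hsD.pair (hsL.pair (hsM.pair (hsl.pair hst)))
  obtain ⟨A3, hA3nd, hA3mem, hA3fam, hA3len⟩ := rel3_longest (U := U) (V := V) D L M l t
  have hnot : ¬ Rel3 U V (((D, L, M, l, t), ([] : Str)), y0) := by
    intro hcon
    have hlpos : 1 ≤ l := by
      by_contra hl0
      have : l = 0 := by omega
      rw [this, pow_zero] at hA3len
      have hne : A3 = [] := List.length_eq_zero_iff.1 (by omega)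
      have := (hA3mem y0).2 hcon
      rw [hne] at this
      cases this
    obtain ⟨p, hp1, hp2⟩ := hc3 (D, L, M, l, t) [] y0 (2 ^ l) hcon (by
      intro F hF1 hF2
      refine le_trans ?_ hA3len.le
      rw [← List.toFinset_card_of_nodup hF1, ← List.toFinset_card_of_nodup hA3nd]
      refine Finset.card_le_card fun y hy => ?_
      rw [List.mem_toFinset] at hy ⊢
      exact (hA3mem y).2 (hF2 y hy))
    rw [Nat.log_pow (by norm_num)] at hp1
    have hMp : M ≤ p.length := by rw [hM]; exact complexity_le hp2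
    have h8 : KW * g = 2 * (κ3 * g) + c3 * g + g := by rw [hKW]; ring
    have h9 : c3 ≤ c3 * g := Nat.le_mul_of_pos_right c3 hg1
    omega
  -- a good admissible set
  have hgood : ∃ A ∈ famList (famBound D L) M t y0,
      ¬ Desc U 1 l (codeT y0) (una (encode A)) := by
    by_contra hcon
    push Not at hcon
    refine hnot ⟨⟨hok, hdesc0⟩, fun z hz => ⟨?_, hsym z hz⟩, hcon⟩
    obtain ⟨s, hs, rfl⟩ := hmem0 z hz
    obtain ⟨p, hp1, hp2⟩ := hprog s
    exact ⟨p, by simp only; omega, hp2⟩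
  obtain ⟨A, hA, hAl⟩ := hgood
  obtain ⟨hAfam, hAy⟩ := of_mem_famList hA
  refine ⟨una (encode A), ?_⟩
  intro s hs
  obtain ⟨a, ha⟩ : ∃ a, a = complexity V s [] := ⟨_, rfl⟩
  have hz : (a, s) ∈ y0 := by
    rw [ha]
    exact List.mem_map.2 ⟨s, Finset.mem_toList.2 hs, rfl⟩
  rw [← ha]
  have haD : a ≤ D := (hok.2 _ hz).1
  have hsa : Small g κD a := hsD.mono haD
  -- upper bound
  have hR1 : Rel1 ((a, una (encode A)), s) :=
    ⟨A, by simp [una_length], List.mem_flatten.2 ⟨y0, hAy, hz⟩⟩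
  obtain ⟨p1, hp11, hp12⟩ := hc1 a (una (encode A)) s (2 ^ (a + 1)) hR1
    (fun Ls h1 h2 => rel1_count hAfam Ls h1 h2)
  rw [Nat.log_pow (by norm_num)] at hp11
  have hlog1 : Nat.log 2 (encode a + 1) ≤ κD * g := Small.log (by simpa using hsa)
  obtain ⟨m, hm⟩ : ∃ m, m = complexity U s (una (encode A)) := ⟨_, rfl⟩
  rw [← hm]
  have hmp : m ≤ p1.length := by rw [hm]; exact complexity_le hp12
  have hc1g : c1 ≤ c1 * g := Nat.le_mul_of_pos_right c1 hg1
  have hup : m ≤ a + (1 + 2 * κD + c1) * g := by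
    have : (1 + 2 * κD + c1) * g = g + 2 * (κD * g) + c1 * g := by ring
    omega
  have hsm : Small g κm m := by
    have h10 : m ≤ a + 1 + (2 * κD) * g + c1 := by
      have : (2 * κD) * g = 2 * (κD * g) := by ring
      omega
    rw [hκm]
    refine Small.mono ?_ h10
    exact ((hsa.add (Small.const hg1 1)).add ((Small.const hg1 (2 * κD)).mul
      (Small.self g))).add (Small.const hg1 c1)
  -- lower bound
  obtain ⟨q, hq1, hq2⟩ := exists_program (D := U) (x := s) (y := una (encode A)) ⟨p1, hp12⟩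
  have hR2 : Rel2 U (((a, m), una (encode A)), y0) :=
    ⟨(A, s), ⟨by simp [una_length], hAy⟩, hz, q, by simp only; omega, hq2⟩
  have hcount := fun F h1 h2 => rel2_count (U := U) (m := m) (a := a) hAfam F h1 h2
  have hale : a ≤ m + 1 + (M + t + 1) := by
    have h11 := hcount [y0] (List.nodup_singleton _) (by
      intro y hy; rw [List.mem_singleton] at hy; subst hy; exact hR2)
    simp only [List.length_singleton, one_mul] at h11
    exact (Nat.pow_le_pow_iff_right (by norm_num)).1 h11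
  obtain ⟨p2, hp21, hp22⟩ := hc2 (a, m) (una (encode A)) y0
    (2 ^ (m + 1 + (M + t + 1) - a)) hR2 (by
      intro F h1 h2
      have h3 := hcount F h1 h2
      have h4 : 2 ^ (m + 1 + (M + t + 1)) = 2 ^ (m + 1 + (M + t + 1) - a) * 2 ^ a := by
        rw [← pow_add]; congr 1; omega
      rw [h4] at h3
      exact Nat.le_of_mul_le_mul_right h3 (by positivity))
  rw [Nat.log_pow (by norm_num)] at hp21
  have hlog2 : Nat.log 2 (encode (a, m) + 1) ≤ (κD + κm) * 2 * g := by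
    refine Small.log ?_
    simp only [Encodable.encode_prod_val, Encodable.encode_nat]
    exact hsa.pair hsm
  have hlp : l ≤ p2.length := by
    by_contra hcon
    exact hAl ⟨p2, by omega, hp22⟩
  have hlow : a ≤ m + (KW + KT + 2 + 2 * ((κD + κm) * 2) + c2) * g := by
    have e1 : (KW + KT + 2 + 2 * ((κD + κm) * 2) + c2) * g =
        KW * g + KT * g + 2 * g + 2 * ((κD + κm) * 2 * g) + c2 * g := by ring
    have e2 : c2 ≤ c2 * g := Nat.le_mul_of_pos_right c2 hg1
    omega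
  constructor
  · have : (1 + 2 * κD + c1) * g ≤
        ((1 + 2 * κD + c1) + (KW + KT + 2 + 2 * ((κD + κm) * 2) + c2)) * g :=
      Nat.mul_le_mul_right _ (Nat.le_add_right _ _)
    omega
  · have : (KW + KT + 2 + 2 * ((κD + κm) * 2) + c2) * g ≤
        ((1 + 2 * κD + c1) + (KW + KT + 2 + 2 * ((κD + κm) * 2) + c2)) * g :=
      Nat.mul_le_mul_right _ (Nat.le_add_left _ _)
    omega

end Pool.Agent.J6H86.OracleSim
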