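import Pool.Agent.J6H86.OracleSim.Small

set_option autoImplicit false

/-!
# The main argument
-/

namespace Pool.Agent.J6H86.OracleSim

open Encodable

/-- Symmetry of information for tables: an entry `z` of the table `y` whose number is its
complexity. -/
lemma symmetry {X : ℕ → Bool} {V : Str × Str →. Str} (hV : IsOptimalIn X V) :
    ∃ c : ℕ, ∀ (D L M lam a : ℕ) (s : Str) (y : Tab), L ≤ 2 ^ lam → TabOK D L y →
      (a, s) ∈ y → Desc V 0 M (codeT y) [] → a = complexity V s [] → ∃ j ≤ M + 1,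
      Desc V a (M + (1 + lam + 2 * Nat.log 2 (encode (D, L, M, a) + 1) +
        2 * Nat.log 2 (encode (D, L, M, a, j) + 1) + c)) (codeT y) s := by
  obtain ⟨c4, hc4⟩ := enum_bound hV (xre_rel4 hV.1) primrec_codeT
  obtain ⟨c5, hc5⟩ := enum_bound hV (xre_rel5 hV.1) (E := fun x => x) Primrec.id
  refine ⟨c4 + c5, ?_⟩
  intro D L M lam a s y hlam hok hmem hdesc ha
  have h4y : Rel4 V (((D, L, M, a), s), y) := ⟨⟨hok, hmem⟩, hdesc⟩
  obtain ⟨F, ⟨hF1, hF2⟩, hF3⟩ := exists_longest
    (fun F : List Tab => F.Nodup ∧ ∀ y ∈ F, Rel4 V (((D, L, M, a), s), y))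
    ⟨List.nodup_nil, by simp⟩ (2 ^ (M + 1)) (fun F hF => (rel4_count F hF.1 hF.2).le)
  have hN1 : 1 ≤ F.length := hF3 [y] ⟨List.nodup_singleton y, by
    intro y' hy'; rw [List.mem_singleton] at hy'; subst hy'; exact h4y⟩
  have hN2 : F.length < 2 ^ (M + 1) := rel4_count F hF1 hF2
  have hj1 : 2 ^ Nat.log 2 F.length ≤ F.length := Nat.pow_log_le_self 2 (by omega)
  have hj2 : Nat.log 2 F.length ≤ M + 1 := (Nat.log_lt_of_lt_pow (by omega) hN2).le
  obtain ⟨p, hp1, hp2⟩ := hc4 (D, L, M, a) s y F.length h4y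
    (fun L' h1 h2 => hF3 L' ⟨h1, h2⟩)
  have h5 : Rel5 V (((D, L, M, a, Nat.log 2 F.length), ([] : Str)), s) := by
    refine ⟨F, ?_, hF2⟩
    rw [ddp_length_of_nodup hF1]
    exact hj1
  obtain ⟨p5, hp51, hp52⟩ := hc5 (D, L, M, a, Nat.log 2 F.length) [] s
    (2 ^ (M + 1 + lam - Nat.log 2 F.length)) h5 (by
      intro Ls h1 h2
      have h3 := rel5_count hlam Ls h1 h2
      have h4 : 2 ^ (M + 1 + lam) =
          2 ^ (M + 1 + lam - Nat.log 2 F.length) * 2 ^ Nat.log 2 F.length := by
        rw [← pow_add]; congr 1; omega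
      rw [h4] at h3
      exact Nat.le_of_mul_le_mul_right h3 (by positivity))
  rw [Nat.log_pow (by norm_num)] at hp51
  have ha' : a ≤ p5.length := by rw [ha]; exact complexity_le hp52
  exact ⟨Nat.log 2 F.length, hj2, p, by omega, hp2⟩

/-- The count for `Rel1`. -/
lemma rel1_count {A : List Tab} {a M t : ℕ} (hA : Fam M t A) (Ls : List Str) (hLs : Ls.Nodup)
    (h : ∀ s ∈ Ls, Rel1 ((a, una (encode A)), s)) : Ls.length ≤ 2 ^ (a + 1) := by
  have h' : ∀ s ∈ Ls, (a, s) ∈ A.flatten := by
    intro s hs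
    obtain ⟨A', h1, h2⟩ := h s hs
    simp only [una_length] at h1 h2
    rw [encode_injective h1] at h2
    exact h2
  rcases Ls with _ | ⟨s0, Ls'⟩
  · simp
  have h0 := h' s0 (List.mem_cons_self)
  refine le_trans ?_ (hA _ h0).1
  rw [← List.length_map (fun s : Str => ((a, s) : Item))]
  refine length_le_ddp ?_ ?_
  · refine hLs.map ?_
    intro x y hxy
    exact (Prod.mk.inj hxy).2
  · intro z hz
    rw [List.mem_map] at hz
    obtain ⟨s, hs, rfl⟩ := hz
    rw [List.mem_filter]
    exact ⟨h' s hs, by simp⟩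

/-- The count for `Rel2`. -/
lemma rel2_count {U : Str × Str →. Str} {A : List Tab} {a m M t : ℕ} (hA : Fam M t A)
    (Ly : List Tab) (hLy : Ly.Nodup)
    (h : ∀ y ∈ Ly, Rel2 U (((a, m), una (encode A)), y)) :
    Ly.length * 2 ^ a ≤ 2 ^ (m + 1 + (M + t + 1)) := by
  classical
  have h' : ∀ y ∈ Ly, ∃ s p : Str, y ∈ A ∧ (a, s) ∈ y ∧ p.length ≤ m ∧
      s ∈ U (p, una (encode A)) := by
    intro y hy
    obtain ⟨⟨A', s⟩, ⟨h1, h2⟩, h3, p, h4, h5⟩ := h y hy
    simp only [una_length] at h1 h2 h3 h4 h5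
    rw [encode_injective h1] at h2
    exact ⟨s, p, h2, h3, by simpa using h4, h5⟩
  choose! S P hA' hS hP hU using h'
  -- map a table to the string found in it
  have h1 : Ly.toFinset.card * 2 ^ a ≤ (Ly.toFinset.image S).card * 2 ^ (M + t + 1) := by
    have h2 : Ly.toFinset.card ≤ ∑ s ∈ Ly.toFinset.image S,
        (Ly.toFinset.filter fun y => S y = s).card := by
      rw [← Finset.card_eq_sum_card_image]
    calc Ly.toFinset.card * 2 ^ a ≤ (∑ s ∈ Ly.toFinset.image S,
          (Ly.toFinset.filter fun y => S y = s).card) * 2 ^ a := Nat.mul_le_mul_right _ h2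
      _ = ∑ s ∈ Ly.toFinset.image S,
          ((Ly.toFinset.filter fun y => S y = s).card * 2 ^ a) := by rw [Finset.sum_mul]
      _ ≤ ∑ s ∈ Ly.toFinset.image S, 2 ^ (M + t + 1) := by
          refine Finset.sum_le_sum fun s hs => ?_
          rw [Finset.mem_image] at hs
          obtain ⟨y0, hy0, rfl⟩ := hs
          rw [List.mem_toFinset] at hy0
          have hz : (a, S y0) ∈ A.flatten :=
            List.mem_flatten.2 ⟨y0, hA' y0 hy0, hS y0 hy0⟩
          refine le_trans (Nat.mul_le_mul_right _ ?_) (hA _ hz).2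
          unfold cnt2
          rw [← List.toFinset_card_of_nodup (nodup_ddp _)]
          refine Finset.card_le_card fun y hy => ?_
          rw [Finset.mem_filter, List.mem_toFinset] at hy
          rw [List.mem_toFinset, mem_ddp, List.mem_filter, decide_eq_true_eq]
          refine ⟨hA' y hy.1, ?_⟩
          rw [← hy.2]
          exact hS y hy.1
      _ = (Ly.toFinset.image S).card * 2 ^ (M + t + 1) := by
          rw [Finset.sum_const, smul_eq_mul]
  have h3 : (Ly.toFinset.image S).card < 2 ^ (m + 1) := by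
    rw [← Finset.length_toList]
    refine length_lt_of_programs (E := fun x => x) (fun _ _ h => h)
      (fun p => U (p, una (encode A))) (m + 1) _ (Finset.nodup_toList _) ?_
    intro s hs
    rw [Finset.mem_toList, Finset.mem_image] at hs
    obtain ⟨y, hy, rfl⟩ := hs
    rw [List.mem_toFinset] at hy
    exact ⟨P y, Nat.lt_succ_of_le (hP y hy), hU y hy⟩
  rw [List.toFinset_card_of_nodup hLy] at h1
  calc Ly.length * 2 ^ a ≤ (Ly.toFinset.image S).card * 2 ^ (M + t + 1) := h1
    _ ≤ 2 ^ (m + 1) * 2 ^ (M + t + 1) := Nat.mul_le_mul_right _ h3.le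
    _ = 2 ^ (m + 1 + (M + t + 1)) := by rw [← pow_add]

/-- The set of all tables satisfying `Rel3` is admissible, so it is small. -/
lemma rel3_longest {U V : Str × Str →. Str} (D L M l t : ℕ) :
    ∃ A : List Tab, A.Nodup ∧ (∀ y, y ∈ A ↔ Rel3 U V (((D, L, M, l, t), ([] : Str)), y)) ∧
      Fam M t A ∧ A.length < 2 ^ l := by
  classical
  obtain ⟨A, ⟨hA1, hA2⟩, hA3⟩ := exists_longest
    (fun F : List Tab => F.Nodup ∧ ∀ y ∈ F, Rel3 U V (((D, L, M, l, t), ([] : Str)), y))
    ⟨List.nodup_nil, by simp⟩ (2 ^ (M + 1)) (by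
      rintro F ⟨hF1, hF2⟩
      refine (length_lt_of_programs codeT_injective (fun p => V (p, [])) (M + 1) F hF1 ?_).le
      intro y hy
      obtain ⟨p, hp1, hp2⟩ := (hF2 y hy).1.2
      exact ⟨p, by simp only at hp1; omega, hp2⟩)
  have hmem : ∀ y, y ∈ A ↔ Rel3 U V (((D, L, M, l, t), ([] : Str)), y) := by
    intro y
    refine ⟨hA2 y, fun hy => ?_⟩
    by_contra hcon
    have := hA3 (y :: A) ⟨List.nodup_cons.2 ⟨hcon, hA1⟩, by
      intro y' hy'
      rcases List.mem_cons.1 hy' with rfl | hy'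
      · exact hy
      · exact hA2 y' hy'⟩
    simp at this
  have hfam : Fam M t A := by
    intro z hz
    constructor
    · -- strings with number `z.1`
      unfold cnt1
      have hlt : (ddp (A.flatten.filter fun z' => z'.1 = z.1)).length < 2 ^ (z.1 + 1) := by
        rw [← List.length_map (fun z' : Item => z'.2)]
        refine length_lt_of_programs (E := fun x => x) (fun _ _ h => h)
          (fun p => V (p, [])) (z.1 + 1) _ ?_ ?_
        · refine List.Nodup.map_on ?_ (nodup_ddp _)
          intro x hx y hy hxy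
          rw [mem_ddp, List.mem_filter, decide_eq_true_eq] at hx hy
          exact Prod.ext (hx.2.trans hy.2.symm) hxy
        · intro s hs
          rw [List.mem_map] at hs
          obtain ⟨z', hz', rfl⟩ := hs
          rw [mem_ddp, List.mem_filter, decide_eq_true_eq, List.mem_flatten] at hz'
          obtain ⟨⟨y, hy, hzy⟩, he⟩ := hz'
          obtain ⟨p, hp1, hp2⟩ := (((hA2 y hy).2.1) z' hzy).1
          exact ⟨p, by omega, hp2⟩
      exact hlt.le
    · unfold cnt2
      by_cases haM : z.1 ≤ M + t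
      · have hlt : (ddp (A.filter fun y => z ∈ y)).length < 2 ^ (M + t - z.1 + 1) := by
          refine length_lt_of_programs codeT_injective (fun p => V (p, z.2))
            (M + t - z.1 + 1) _ (nodup_ddp _) ?_
          intro y hy
          rw [mem_ddp, List.mem_filter, decide_eq_true_eq] at hy
          obtain ⟨p, hp1, hp2⟩ := (((hA2 y hy.1).2.1) z hy.2).2
          exact ⟨p, by simp only at hp1; omega, hp2⟩
        calc (ddp (A.filter fun y => z ∈ y)).length * 2 ^ z.1
            ≤ 2 ^ (M + t - z.1 + 1) * 2 ^ z.1 := Nat.mul_le_mul_right _ hlt.le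
          _ = 2 ^ (M + t + 1) := by rw [← pow_add]; congr 1; omega
      · exfalso
        rw [List.mem_flatten] at hz
        obtain ⟨y, hy, hzy⟩ := hz
        obtain ⟨p, hp1, hp2⟩ := (((hA2 y hy).2.1) z hzy).2
        simp only at hp1
        omega
  refine ⟨A, hA1, hmem, hfam, ?_⟩
  refine length_lt_of_programs codeT_injective (fun p => U (p, una (encode A))) l A hA1 ?_
  intro y hy
  have h3 := hA2 y hy
  have hle : encode A ≤ famBound D L :=
    encode_fam_le hA1 fun y' hy' => (hA2 y' hy').1.1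
  obtain ⟨p, hp1, hp2⟩ := h3.2.2 A (mem_famList hle hfam hy)
  exact ⟨p, by simp only at hp1; omega, hp2⟩

end Pool.Agent.J6H86.OracleSim
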