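import Pool.Agent.J6H86.OracleSim.Defs

set_option autoImplicit false

/-!
# Oracle computations through finite prefixes of the oracle

For an oracle `X : ℕ → Bool` we show that the partial functions recursive in `X`
(Mathlib's `Nat.RecursiveIn`) are exactly those given by a primitive recursive monotone
function reading only a finite prefix of `X`.
-/

namespace Pool.Agent.J6H86.OracleSim

open Encodable Primrec

/-- The prefix of length `t` of the sequence `X`. -/
def pre (X : ℕ → Bool) (t : ℕ) : List Bool := (List.range t).map X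

@[simp] lemma pre_length (X : ℕ → Bool) (t : ℕ) : (pre X t).length = t := by simp [pre]

lemma pre_succ (X : ℕ → Bool) (t : ℕ) : pre X (t + 1) = pre X t ++ [X t] := by
  simp [pre, List.range_succ]

lemma pre_prefix (X : ℕ → Bool) {s t : ℕ} (h : s ≤ t) : pre X s <+: pre X t := by
  induction t, h using Nat.le_induction with
  | base => exact List.prefix_refl _
  | succ t _ ih => exact ih.trans ⟨[X t], by rw [pre_succ]⟩

lemma pre_take (X : ℕ → Bool) {s t : ℕ} (h : s ≤ t) : (pre X t).take s = pre X s := by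
  have := List.prefix_iff_eq_take.1 (pre_prefix X h)
  simpa using this.symm

lemma pre_getElem? (X : ℕ → Bool) {n t : ℕ} (h : n < t) : (pre X t)[n]? = some (X n) := by
  simp [pre, h]

/-! ### The normal form -/

/-- `f` is computed by the monotone prefix functional `G` with oracle `X`. -/
def Computes (X : ℕ → Bool) (G : List Bool → ℕ → Option ℕ) (f : ℕ →. ℕ) : Prop :=
  Primrec₂ G ∧ (∀ σ τ a b, σ <+: τ → G σ a = some b → G τ a = some b) ∧
    ∀ a b, b ∈ f a ↔ ∃ t, G (pre X t) a = some b

lemma Computes.total {X : ℕ → Bool} {g : ℕ → ℕ} (hg : Primrec g) :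
    Computes X (fun _ a => some (g a)) (fun a => Part.some (g a)) := by
  refine ⟨?_, ?_, ?_⟩
  · exact (Primrec.option_some.comp (hg.comp Primrec.snd)).to₂
  · intro σ τ a b _ h; exact h
  · intro a b
    simp [eq_comm]

lemma prefix_getElem? {σ τ : List Bool} (h : σ <+: τ) {n : ℕ} {b : Bool}
    (hn : σ[n]? = some b) : τ[n]? = some b := by
  obtain ⟨r, rfl⟩ := h
  have hlt : n < σ.length := by
    by_contra hcon
    rw [List.getElem?_eq_none (by omega)] at hn
    cases hn
  rw [List.getElem?_append_left hlt]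
  exact hn

lemma Computes.oracle (X : ℕ → Bool) :
    Computes X (fun σ a => (σ[a]?).map Bool.toNat) (oracleOf X) := by
  refine ⟨?_, ?_, ?_⟩
  · exact (Primrec.option_map (Primrec.list_getElem?.comp Primrec.fst Primrec.snd)
      ((Primrec.dom_bool Bool.toNat).comp Primrec.snd).to₂).to₂
  · intro σ τ a b hst h
    simp only [Option.map_eq_some_iff] at h ⊢
    obtain ⟨c, hc, rfl⟩ := h
    exact ⟨c, prefix_getElem? hst hc, rfl⟩
  · intro a b
    simp only [oracleOf, Part.mem_some_iff, Option.map_eq_some_iff]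
    constructor
    · rintro rfl
      exact ⟨a + 1, X a, pre_getElem? X (Nat.lt_succ_self a), rfl⟩
    · rintro ⟨t, c, hc, rfl⟩
      have hlt : a < t := by
        by_contra hcon
        rw [List.getElem?_eq_none (by simpa using hcon)] at hc
        cases hc
      rw [pre_getElem? X hlt] at hc
      cases hc; rfl

lemma Computes.pair {X : ℕ → Bool} {F H : List Bool → ℕ → Option ℕ} {f h : ℕ →. ℕ}
    (hF : Computes X F f) (hH : Computes X H h) :
    Computes X (fun σ a => (F σ a).bind fun x => (H σ a).map fun y => Nat.pair x y)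
      (fun n => (Nat.pair <$> f n <*> h n)) := by
  obtain ⟨F1, F2, F3⟩ := hF
  obtain ⟨H1, H2, H3⟩ := hH
  refine ⟨?_, ?_, ?_⟩
  · have h0 : Primrec fun x : List Bool × ℕ =>
        (F x.1 x.2).bind fun u => (H x.1 x.2).map fun y => Nat.pair u y := by
      refine Primrec.option_bind F1 ?_
      have h1 : Primrec fun z : (List Bool × ℕ) × ℕ =>
          (H z.1.1 z.1.2).map fun y => Nat.pair z.2 y := by
        refine Primrec.option_map (H1.comp (Primrec.fst.comp Primrec.fst)
          (Primrec.snd.comp Primrec.fst)) ?_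
        exact (Primrec₂.natPair.comp (Primrec.snd.comp Primrec.fst) Primrec.snd).to₂
      exact h1.to₂
    exact h0.to₂
  · intro σ τ a b hst hh
    simp only [Option.bind_eq_some_iff, Option.map_eq_some_iff] at hh ⊢
    obtain ⟨x, hx, y, hy, rfl⟩ := hh
    exact ⟨x, F2 σ τ a x hst hx, y, H2 σ τ a y hst hy, rfl⟩
  · intro a b
    simp only [Option.bind_eq_some_iff, Option.map_eq_some_iff]
    constructor
    · intro hb
      simp only [Seq.seq, Part.mem_bind_iff, Part.map_eq_map, Part.mem_map_iff] at hb
      obtain ⟨g, ⟨x, hx, rfl⟩, y, hy, rfl⟩ := hb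
      obtain ⟨t1, h1⟩ := (F3 a x).1 hx
      obtain ⟨t2, h2⟩ := (H3 a y).1 hy
      exact ⟨max t1 t2, x, F2 _ _ a x (pre_prefix X (le_max_left _ _)) h1, y,
        H2 _ _ a y (pre_prefix X (le_max_right _ _)) h2, rfl⟩
    · rintro ⟨t, x, hx, y, hy, rfl⟩
      simp only [Seq.seq, Part.mem_bind_iff, Part.map_eq_map, Part.mem_map_iff]
      exact ⟨Nat.pair x, ⟨x, (F3 a x).2 ⟨t, hx⟩, rfl⟩, y, (H3 a y).2 ⟨t, hy⟩, rfl⟩

lemma Computes.comp {X : ℕ → Bool} {F H : List Bool → ℕ → Option ℕ} {f h : ℕ →. ℕ}
    (hF : Computes X F f) (hH : Computes X H h) :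
    Computes X (fun σ a => (H σ a).bind fun x => F σ x)
      (fun n => h n >>= f) := by
  obtain ⟨F1, F2, F3⟩ := hF
  obtain ⟨H1, H2, H3⟩ := hH
  refine ⟨?_, ?_, ?_⟩
  · have h0 : Primrec fun x : List Bool × ℕ => (H x.1 x.2).bind fun u => F x.1 u := by
      refine Primrec.option_bind H1 ?_
      exact (F1.comp (Primrec.fst.comp Primrec.fst) Primrec.snd).to₂
    exact h0.to₂
  · intro σ τ a b hst hh
    simp only [Option.bind_eq_some_iff] at hh ⊢
    obtain ⟨x, hx, hy⟩ := hh
    exact ⟨x, H2 σ τ a x hst hx, F2 σ τ x b hst hy⟩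
  · intro a b
    refine (Part.mem_bind_iff (f := h a) (g := f)).trans ?_
    simp only [Option.bind_eq_some_iff]
    constructor
    · rintro ⟨x, hx, hy⟩
      obtain ⟨t1, h1⟩ := (H3 a x).1 hx
      obtain ⟨t2, h2⟩ := (F3 x b).1 hy
      exact ⟨max t1 t2, x, H2 _ _ a x (pre_prefix X (le_max_left _ _)) h1,
        F2 _ _ x b (pre_prefix X (le_max_right _ _)) h2⟩
    · rintro ⟨t, x, hx, hy⟩
      exact ⟨x, (H3 a x).2 ⟨t, hx⟩, (F3 x b).2 ⟨t, hy⟩⟩

/-- Primitive recursion on option values. -/
def precG (F H : List Bool → ℕ → Option ℕ) (σ : List Bool) (a n : ℕ) : Option ℕ :=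
  Nat.rec (F σ a) (fun y IH => IH.bind fun i => H σ (Nat.pair a (Nat.pair y i))) n

lemma precG_mono {F H : List Bool → ℕ → Option ℕ}
    (F2 : ∀ σ τ a b, σ <+: τ → F σ a = some b → F τ a = some b)
    (H2 : ∀ σ τ a b, σ <+: τ → H σ a = some b → H τ a = some b)
    (a n : ℕ) (σ τ : List Bool) (b : ℕ) (hst : σ <+: τ)
    (hh : precG F H σ a n = some b) : precG F H τ a n = some b := by
  induction n generalizing b with
  | zero => exact F2 σ τ a b hst hh
  | succ n ih =>
    simp only [precG, Option.bind_eq_some_iff] at hh ih ⊢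
    obtain ⟨i, hi, hb⟩ := hh
    exact ⟨i, ih i hi, H2 _ _ _ _ hst hb⟩

lemma Computes.prec {X : ℕ → Bool} {F H : List Bool → ℕ → Option ℕ} {f h : ℕ →. ℕ}
    (hF : Computes X F f) (hH : Computes X H h) :
    Computes X (fun σ p => precG F H σ p.unpair.1 p.unpair.2)
      (fun p =>
        let (a, n) := Nat.unpair p
        n.rec (f a) fun y IH => do
          let i ← IH
          h (Nat.pair a (Nat.pair y i))) := by
  obtain ⟨F1, F2, F3⟩ := hF
  obtain ⟨H1, H2, H3⟩ := hH
  refine ⟨?_, ?_, ?_⟩
  · have h0 : Primrec fun x : List Bool × ℕ => precG F H x.1 x.2.unpair.1 x.2.unpair.2 := by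
      unfold precG
      refine Primrec.nat_rec' (f := fun x : List Bool × ℕ => x.2.unpair.2)
        (g := fun x : List Bool × ℕ => F x.1 x.2.unpair.1)
        (h := fun (x : List Bool × ℕ) (z : ℕ × Option ℕ) =>
          z.2.bind fun i => H x.1 (Nat.pair x.2.unpair.1 (Nat.pair z.1 i))) ?_ ?_ ?_
      · exact Primrec.snd.comp (Primrec.unpair.comp Primrec.snd)
      · exact F1.comp Primrec.fst (Primrec.fst.comp (Primrec.unpair.comp Primrec.snd))
      · have h2 : Primrec fun w : (List Bool × ℕ) × (ℕ × Option ℕ) =>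
            w.2.2.bind fun i => H w.1.1 (Nat.pair w.1.2.unpair.1 (Nat.pair w.2.1 i)) := by
          refine Primrec.option_bind (Primrec.snd.comp Primrec.snd) ?_
          have h3 : Primrec fun w : ((List Bool × ℕ) × (ℕ × Option ℕ)) × ℕ =>
              H w.1.1.1 (Nat.pair w.1.1.2.unpair.1 (Nat.pair w.1.2.1 w.2)) := by
            refine H1.comp (Primrec.fst.comp (Primrec.fst.comp Primrec.fst)) ?_
            refine Primrec₂.natPair.comp ?_ (Primrec₂.natPair.comp ?_ Primrec.snd)
            · exact Primrec.fst.comp (Primrec.unpair.comp (Primrec.snd.comp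
                (Primrec.fst.comp Primrec.fst)))
            · exact Primrec.fst.comp (Primrec.snd.comp Primrec.fst)
          exact h3.to₂
        exact h2.to₂
    exact h0.to₂
  · intro σ τ p b hst hh
    exact precG_mono F2 H2 _ _ _ _ _ hst hh
  · intro p b
    dsimp only
    generalize p.unpair.1 = a
    generalize p.unpair.2 = n
    have mono := fun n σ τ b => precG_mono F2 H2 a n σ τ b
    induction n generalizing b with
    | zero => exact F3 a b
    | succ n ih =>
      simp only [Part.bind_eq_bind, Part.mem_bind_iff]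
      constructor
      · rintro ⟨i, hi, hb⟩
        obtain ⟨t1, h1⟩ := (ih i).1 hi
        obtain ⟨t2, h2⟩ := (H3 _ b).1 hb
        refine ⟨max t1 t2, ?_⟩
        have e1 := mono n _ _ _ (pre_prefix X (le_max_left t1 t2)) h1
        have e2 := H2 _ _ _ _ (pre_prefix X (le_max_right t1 t2)) h2
        simp only [precG, Option.bind_eq_some_iff] at e1 ⊢
        exact ⟨i, e1, e2⟩
      · rintro ⟨t, ht⟩
        simp only [precG, Option.bind_eq_some_iff] at ht
        obtain ⟨i, hi, hb⟩ := ht
        exact ⟨i, (ih i).2 ⟨t, hi⟩, (H3 _ b).2 ⟨t, hb⟩⟩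

/-- Bounded search status: `0` searching, `1` stuck, `n + 2` found `n`. -/
def searchG (F : List Bool → ℕ → Option ℕ) (σ : List Bool) (a n : ℕ) : ℕ :=
  Nat.rec 0 (fun y IH => if IH = 0 then
    (match F σ (Nat.pair a y) with
      | none => 1
      | some 0 => y + 2
      | some (_ + 1) => 0) else IH) n

lemma searchG_zero (F : List Bool → ℕ → Option ℕ) (σ : List Bool) (a : ℕ) :
    searchG F σ a 0 = 0 := rfl

lemma searchG_succ (F : List Bool → ℕ → Option ℕ) (σ : List Bool) (a n : ℕ) :
    searchG F σ a (n + 1) = if searchG F σ a n = 0 then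
    (match F σ (Nat.pair a n) with
      | none => 1
      | some 0 => n + 2
      | some (_ + 1) => 0) else searchG F σ a n := rfl

lemma searchG_zero_iff (F : List Bool → ℕ → Option ℕ) (σ : List Bool) (a n : ℕ) :
    searchG F σ a n = 0 ↔ ∀ y < n, ∃ z, F σ (Nat.pair a y) = some (z + 1) := by
  induction n with
  | zero => simp [searchG_zero]
  | succ n ih =>
    rw [searchG_succ]
    constructor
    · intro h
      by_cases h0 : searchG F σ a n = 0
      · rw [if_pos h0] at h
        intro y hy
        rcases Nat.lt_succ_iff_lt_or_eq.1 hy with hy | rfl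
        · exact ih.1 h0 y hy
        · rcases hF : F σ (Nat.pair a y) with _ | z
          · rw [hF] at h; simp at h
          · rcases z with _ | z
            · rw [hF] at h; simp at h
            · exact ⟨z, rfl⟩
      · rw [if_neg h0] at h; exact absurd h h0
    · intro h
      have h0 : searchG F σ a n = 0 := ih.2 fun y hy => h y (Nat.lt_succ_of_lt hy)
      rw [if_pos h0]
      obtain ⟨z, hz⟩ := h n (Nat.lt_succ_self n)
      rw [hz]

lemma searchG_found_iff (F : List Bool → ℕ → Option ℕ) (σ : List Bool) (a n m : ℕ) :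
    searchG F σ a n = m + 2 ↔ m < n ∧ F σ (Nat.pair a m) = some 0 ∧
      ∀ y < m, ∃ z, F σ (Nat.pair a y) = some (z + 1) := by
  induction n with
  | zero => simp [searchG_zero]
  | succ n ih =>
    rw [searchG_succ]
    by_cases h0 : searchG F σ a n = 0
    · rw [if_pos h0]
      have hz := (searchG_zero_iff F σ a n).1 h0
      constructor
      · intro h
        rcases hF : F σ (Nat.pair a n) with _ | z
        · rw [hF] at h; simp at h
        · rcases z with _ | z
          · rw [hF] at h
            simp only [Nat.add_right_cancel_iff] at h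
            subst h
            exact ⟨Nat.lt_succ_self n, hF, hz⟩
          · rw [hF] at h; simp at h
      · rintro ⟨hm, hm0, hall⟩
        have : m = n := by
          by_contra hne
          have hlt : m < n := by omega
          obtain ⟨z, hz'⟩ := hz m hlt
          rw [hz'] at hm0; simp at hm0
        subst this
        rw [hm0]
    · rw [if_neg h0, ih]
      constructor
      · rintro ⟨h1, h2, h3⟩
        exact ⟨Nat.lt_succ_of_lt h1, h2, h3⟩
      · rintro ⟨h1, h2, h3⟩
        refine ⟨?_, h2, h3⟩
        by_contra hcon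
        have : m = n := by omega
        subst this
        exact h0 ((searchG_zero_iff F σ a m).2 h3)

/-- The functional for unbounded search. -/
def rfindG (F : List Bool → ℕ → Option ℕ) (σ : List Bool) (a : ℕ) : Option ℕ :=
  if 2 ≤ searchG F σ a σ.length then some (searchG F σ a σ.length - 2) else none

lemma rfindG_eq_some (F : List Bool → ℕ → Option ℕ) (σ : List Bool) (a m : ℕ) :
    rfindG F σ a = some m ↔ m < σ.length ∧ F σ (Nat.pair a m) = some 0 ∧
      ∀ y < m, ∃ z, F σ (Nat.pair a y) = some (z + 1) := by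
  rw [← searchG_found_iff, rfindG]
  split_ifs with h
  · simp only [Option.some.injEq]; omega
  · simp only [false_iff]; omega

lemma Computes.rfind {X : ℕ → Bool} {F : List Bool → ℕ → Option ℕ} {f : ℕ →. ℕ}
    (hF : Computes X F f) :
    Computes X (rfindG F)
      (fun a => Nat.rfind fun n => (fun m => m = 0) <$> f (Nat.pair a n)) := by
  obtain ⟨F1, F2, F3⟩ := hF
  refine ⟨?_, ?_, ?_⟩
  · have hs : Primrec fun x : (List Bool × ℕ) => searchG F x.1 x.2 x.1.length := by
      unfold searchG
      refine Primrec.nat_rec' (f := fun x : List Bool × ℕ => x.1.length)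
        (g := fun x : List Bool × ℕ => 0)
        (h := fun (x : List Bool × ℕ) (z : ℕ × ℕ) => if z.2 = 0 then
          (match F x.1 (Nat.pair x.2 z.1) with
            | none => 1
            | some 0 => z.1 + 2
            | some (_ + 1) => 0) else z.2) ?_ ?_ ?_
      · exact Primrec.list_length.comp Primrec.fst
      · exact Primrec.const 0
      · have hcase : Primrec fun u : (List Bool × ℕ) × (ℕ × ℕ) =>
            (Option.casesOn (F u.1.1 (Nat.pair u.1.2 u.2.1)) 1
              (fun w => Nat.casesOn w (u.2.1 + 2) (fun _ => 0)) : ℕ) := by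
          refine Primrec.option_casesOn
            (o := fun u : (List Bool × ℕ) × (ℕ × ℕ) => F u.1.1 (Nat.pair u.1.2 u.2.1))
            ?_ (Primrec.const 1) ?_
          · exact F1.comp (Primrec.fst.comp Primrec.fst) (Primrec₂.natPair.comp
              (Primrec.snd.comp Primrec.fst) (Primrec.fst.comp Primrec.snd))
          · have h4 : Primrec fun w : ((List Bool × ℕ) × (ℕ × ℕ)) × ℕ =>
                (Nat.casesOn w.2 (w.1.2.1 + 2) (fun _ => 0) : ℕ) := by
              refine Primrec.nat_casesOn Primrec.snd ?_ (Primrec.const 0).to₂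
              exact Primrec.nat_add.comp (Primrec.fst.comp (Primrec.snd.comp Primrec.fst))
                (Primrec.const 2)
            exact h4.to₂
        have hcase' : Primrec fun u : (List Bool × ℕ) × (ℕ × ℕ) =>
            (match F u.1.1 (Nat.pair u.1.2 u.2.1) with
            | none => 1
            | some 0 => u.2.1 + 2
            | some (_ + 1) => 0 : ℕ) := by
          refine hcase.of_eq fun u => ?_
          rcases F u.1.1 (Nat.pair u.1.2 u.2.1) with _ | z
          · rfl
          · rcases z with _ | z <;> rfl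
        exact (Primrec.ite (Primrec.eq.comp (Primrec.snd.comp Primrec.snd)
          (Primrec.const 0)) hcase' (Primrec.snd.comp Primrec.snd)).to₂
    unfold rfindG
    exact (Primrec.ite (Primrec.nat_le.comp (Primrec.const 2) hs)
      (Primrec.option_some.comp (Primrec.nat_sub.comp hs (Primrec.const 2)))
      (Primrec.const none)).to₂
  · intro σ τ a m hst h
    rw [rfindG_eq_some] at h ⊢
    obtain ⟨h1, h2, h3⟩ := h
    refine ⟨lt_of_lt_of_le h1 hst.length_le, F2 _ _ _ _ hst h2, fun y hy => ?_⟩
    obtain ⟨z, hz⟩ := h3 y hy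
    exact ⟨z, F2 _ _ _ _ hst hz⟩
  · intro a m
    refine Nat.mem_rfind.trans ?_
    simp only [Part.map_eq_map, Part.mem_map_iff]
    constructor
    · rintro ⟨⟨z, hz, hz0⟩, hall⟩
      have hz0' : z = 0 := by simpa using hz0
      subst hz0'
      obtain ⟨t0, ht0⟩ := (F3 _ _).1 hz
      have key : ∀ k ≤ m, ∃ t, ∀ y < k, ∃ z, F (pre X t) (Nat.pair a y) = some (z + 1) := by
        intro k
        induction k with
        | zero => intro _; exact ⟨0, fun y hy => absurd hy (Nat.not_lt_zero y)⟩
        | succ k ih =>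
          intro hk
          obtain ⟨t, ht⟩ := ih (by omega)
          obtain ⟨z, hz, hzf⟩ := hall (by omega : k < m)
          have hzne : z ≠ 0 := by
            rintro rfl
            simp at hzf
          obtain ⟨z', rfl⟩ := Nat.exists_eq_succ_of_ne_zero hzne
          obtain ⟨t', ht'⟩ := (F3 _ _).1 hz
          refine ⟨max t t', fun y hy => ?_⟩
          rcases Nat.lt_succ_iff_lt_or_eq.1 hy with hy | rfl
          · obtain ⟨w, hw⟩ := ht y hy
            exact ⟨w, F2 _ _ _ _ (pre_prefix X (le_max_left _ _)) hw⟩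
          · exact ⟨z', F2 _ _ _ _ (pre_prefix X (le_max_right _ _)) ht'⟩
      obtain ⟨t1, ht1⟩ := key m le_rfl
      refine ⟨max (max t0 t1) (m + 1), ?_⟩
      rw [rfindG_eq_some]
      refine ⟨by simp, ?_, ?_⟩
      · exact F2 _ _ _ _ (pre_prefix X (by omega)) ht0
      · intro y hy
        obtain ⟨w, hw⟩ := ht1 y hy
        exact ⟨w, F2 _ _ _ _ (pre_prefix X (by omega)) hw⟩
    · rintro ⟨t, ht⟩
      rw [rfindG_eq_some] at ht
      obtain ⟨_, h2, h3⟩ := ht
      refine ⟨⟨0, (F3 _ _).2 ⟨t, h2⟩, by simp⟩, ?_⟩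
      intro y hy
      obtain ⟨z, hz⟩ := h3 y hy
      exact ⟨z + 1, (F3 _ _).2 ⟨t, hz⟩, by simp⟩

/-- **Normal form.** Every partial function recursive in `X` is computed by a primitive
recursive monotone functional reading finite prefixes of `X`. -/
theorem exists_computes {X : ℕ → Bool} {f : ℕ →. ℕ}
    (hf : Nat.RecursiveIn {oracleOf X} f) : ∃ G, Computes X G f := by
  induction hf with
  | zero => exact ⟨_, Computes.total (Primrec.const 0)⟩
  | succ => exact ⟨_, Computes.total Primrec.succ⟩
  | left => exact ⟨_, Computes.total (Primrec.fst.comp Primrec.unpair)⟩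
  | right => exact ⟨_, Computes.total (Primrec.snd.comp Primrec.unpair)⟩
  | oracle g hg =>
    rw [Set.mem_singleton_iff] at hg
    subst hg
    exact ⟨_, Computes.oracle X⟩
  | pair _ _ ih1 ih2 =>
    obtain ⟨_, h1⟩ := ih1
    obtain ⟨_, h2⟩ := ih2
    exact ⟨_, h1.pair h2⟩
  | comp _ _ ih1 ih2 =>
    obtain ⟨_, h1⟩ := ih1
    obtain ⟨_, h2⟩ := ih2
    exact ⟨_, h1.comp h2⟩
  | prec _ _ ih1 ih2 =>
    obtain ⟨_, h1⟩ := ih1
    obtain ⟨_, h2⟩ := ih2
    exact ⟨_, h1.prec h2⟩
  | rfind _ ih =>
    obtain ⟨_, h1⟩ := ih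
    exact ⟨_, h1.rfind⟩

end Pool.Agent.J6H86.OracleSim
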