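import Pool.Agent.J6H86.OracleSim.Combi

set_option autoImplicit false

/-!
# The enumerable relations used in the proof
-/

namespace Pool.Agent.J6H86.OracleSim

open Encodable Primrec

/-- `x` has a `D`-program `p` with condition `y` and `|p| + b ≤ m`. -/
def Desc (D : Str × Str →. Str) (b m : ℕ) (x y : Str) : Prop :=
  ∃ p : Str, p.length + b ≤ m ∧ x ∈ D (p, y)

variable {X : ℕ → Bool} {U V : Str × Str →. Str}

lemma xre_desc (hV : RecursiveIn {oracleOf X} V) :
    XRE X (fun u : (ℕ × ℕ) × (Str × Str) => Desc V u.1.1 u.1.2 u.2.1 u.2.2) := by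
  have h1 : XRE X (fun w : ((ℕ × ℕ) × (Str × Str)) × Str => w.2.length + w.1.1.1 ≤ w.1.1.2) := by
    refine XRE.of_primrec ?_
    exact Primrec.nat_le.comp
      (f := fun w : ((ℕ × ℕ) × (Str × Str)) × Str => w.2.length + w.1.1.1)
      (g := fun w => w.1.1.2)
      (Primrec.nat_add.comp (Primrec.list_length.comp Primrec.snd)
        (Primrec.fst.comp (Primrec.fst.comp Primrec.fst)))
      (Primrec.snd.comp (Primrec.fst.comp Primrec.fst))
  have h2 : XRE X (fun w : ((ℕ × ℕ) × (Str × Str)) × Str => w.1.2.1 ∈ V (w.2, w.1.2.2)) := by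
    have h3 := XRE.of_recursiveIn hV
    exact h3.comp (f := fun w : ((ℕ × ℕ) × (Str × Str)) × Str => ((w.2, w.1.2.2), w.1.2.1))
      (Primrec.pair (Primrec.pair Primrec.snd (Primrec.snd.comp (Primrec.snd.comp Primrec.fst)))
        (Primrec.fst.comp (Primrec.snd.comp Primrec.fst)))
  exact (h1.and h2).exists

/-! ### Relations for the plain machine -/

/-- `u.2` occurs with number `u.1.1` in the set of tables coded by `u.1.2`. -/
def Rel1 (u : (ℕ × Str) × Str) : Prop :=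
  ∃ A : List Tab, encode A = u.1.2.length ∧ (u.1.1, u.2) ∈ A.flatten

lemma xre_rel1 : XRE X Rel1 := by
  refine XRE.exists (P := fun w : ((ℕ × Str) × Str) × List Tab =>
    encode w.2 = w.1.1.2.length ∧ (w.1.1.1, w.1.2) ∈ w.2.flatten) ?_
  refine XRE.and ?_ ?_
  · refine XRE.of_primrec ?_
    exact Primrec.eq.comp (f := fun w : ((ℕ × Str) × Str) × List Tab => encode w.2)
      (g := fun w => w.1.1.2.length) (Primrec.encode.comp Primrec.snd)
      (Primrec.list_length.comp (Primrec.snd.comp (Primrec.fst.comp Primrec.fst)))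
  · refine XRE.of_primrec ?_
    exact primrecRel_mem.comp (f := fun w : ((ℕ × Str) × Str) × List Tab => w.2.flatten)
      (g := fun w => (w.1.1.1, w.1.2)) (Primrec.list_flatten.comp Primrec.snd)
      (Primrec.pair (Primrec.fst.comp (Primrec.fst.comp Primrec.fst))
        (Primrec.snd.comp Primrec.fst))

/-- With `u.1.1 = (a, m)`: the table `u.2` belongs to the set of tables coded by `u.1.2` and
contains, with number `a`, a string that has a program of length at most `m` given that set. -/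
def Rel2 (U : Str × Str →. Str) (u : ((ℕ × ℕ) × Str) × Tab) : Prop :=
  ∃ w : List Tab × Str, (encode w.1 = u.1.2.length ∧ u.2 ∈ w.1) ∧ (u.1.1.1, w.2) ∈ u.2 ∧
    Desc U 0 u.1.1.2 w.2 u.1.2

lemma xre_rel2 (hU : RecursiveIn {oracleOf X} U) : XRE X (Rel2 U) := by
  refine XRE.exists (P := fun w : (((ℕ × ℕ) × Str) × Tab) × (List Tab × Str) =>
    (encode w.2.1 = w.1.1.2.length ∧ w.1.2 ∈ w.2.1) ∧ (w.1.1.1.1, w.2.2) ∈ w.1.2 ∧
    Desc U 0 w.1.1.1.2 w.2.2 w.1.1.2) ?_
  have hu : Primrec fun w : (((ℕ × ℕ) × Str) × Tab) × (List Tab × Str) => w.1.1 :=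
    Primrec.fst.comp Primrec.fst
  have hA : Primrec fun w : (((ℕ × ℕ) × Str) × Tab) × (List Tab × Str) => w.2.1 :=
    Primrec.fst.comp Primrec.snd
  have hs : Primrec fun w : (((ℕ × ℕ) × Str) × Tab) × (List Tab × Str) => w.2.2 :=
    Primrec.snd.comp Primrec.snd
  have hy : Primrec fun w : (((ℕ × ℕ) × Str) × Tab) × (List Tab × Str) => w.1.2 :=
    Primrec.snd.comp Primrec.fst
  refine XRE.and (XRE.of_primrec (PrimrecPred.and ?_ ?_)) (XRE.and (XRE.of_primrec ?_) ?_)
  · exact Primrec.eq.comp (Primrec.encode.comp hA)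
      (Primrec.list_length.comp (Primrec.snd.comp hu))
  · exact primrecRel_mem.comp hA hy
  · exact primrecRel_mem.comp hy (Primrec.pair (Primrec.fst.comp (Primrec.fst.comp hu)) hs)
  · exact (xre_desc hU).comp
      (f := fun w : (((ℕ × ℕ) × Str) × Tab) × (List Tab × Str) =>
        ((0, w.1.1.1.2), (w.2.2, w.1.1.2)))
      (Primrec.pair (Primrec.pair (Primrec.const 0) (Primrec.snd.comp (Primrec.fst.comp hu)))
        (Primrec.pair hs (Primrec.snd.comp hu)))

/-! ### Relations for the oracle machine -/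

/-- Parameters `(D, L, M, a)`: the table `u.2` is within the bounds `D, L`, contains the
condition `u.1.2` with number `a`, and has a program of length at most `M`. -/
def Rel4 (V : Str × Str →. Str) (u : ((ℕ × ℕ × ℕ × ℕ) × Str) × Tab) : Prop :=
  (TabOK u.1.1.1 u.1.1.2.1 u.2 ∧ (u.1.1.2.2.2, u.1.2) ∈ u.2) ∧
    Desc V 0 u.1.1.2.2.1 (codeT u.2) []

lemma xre_rel4 (hV : RecursiveIn {oracleOf X} V) : XRE X (Rel4 V) := by
  have hq : Primrec fun u : ((ℕ × ℕ × ℕ × ℕ) × Str) × Tab => u.1.1 :=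
    Primrec.fst.comp Primrec.fst
  refine XRE.and (XRE.of_primrec (PrimrecPred.and ?_ ?_)) ?_
  · exact primrec_tabOK.comp (f := fun u : ((ℕ × ℕ × ℕ × ℕ) × Str) × Tab =>
      ((u.1.1.1, u.1.1.2.1), u.2)) (Primrec.pair (Primrec.pair (Primrec.fst.comp hq)
        (Primrec.fst.comp (Primrec.snd.comp hq))) Primrec.snd)
  · exact primrecRel_mem.comp (f := fun u : ((ℕ × ℕ × ℕ × ℕ) × Str) × Tab => u.2)
      (g := fun u => (u.1.1.2.2.2, u.1.2)) Primrec.snd
      (Primrec.pair (Primrec.snd.comp (Primrec.snd.comp (Primrec.snd.comp hq)))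
        (Primrec.snd.comp Primrec.fst))
  · exact (xre_desc hV).comp (f := fun u : ((ℕ × ℕ × ℕ × ℕ) × Str) × Tab =>
      ((0, u.1.1.2.2.1), (codeT u.2, ([] : Str))))
      (Primrec.pair (Primrec.pair (Primrec.const 0)
        (Primrec.fst.comp (Primrec.snd.comp (Primrec.snd.comp hq))))
        (Primrec.pair (primrec_codeT.comp Primrec.snd) (Primrec.const [])))

/-- Parameters `(D, L, M, a, j)`: at least `2 ^ j` tables satisfy `Rel4` for the string `u.2`. -/
def Rel5 (V : Str × Str →. Str) (u : ((ℕ × ℕ × ℕ × ℕ × ℕ) × Str) × Str) : Prop :=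
  ∃ F : List Tab, 2 ^ u.1.1.2.2.2.2 ≤ (ddp F).length ∧
    ∀ y ∈ F, Rel4 V (((u.1.1.1, u.1.1.2.1, u.1.1.2.2.1, u.1.1.2.2.2.1), u.2), y)

lemma xre_rel5 (hV : RecursiveIn {oracleOf X} V) : XRE X (Rel5 V) := by
  refine XRE.exists (P := fun w : (((ℕ × ℕ × ℕ × ℕ × ℕ) × Str) × Str) × List Tab =>
    2 ^ w.1.1.1.2.2.2.2 ≤ (ddp w.2).length ∧
      ∀ y ∈ w.2, Rel4 V (((w.1.1.1.1, w.1.1.1.2.1, w.1.1.1.2.2.1, w.1.1.1.2.2.2.1), w.1.2), y))
    ?_
  have hq : Primrec fun w : (((ℕ × ℕ × ℕ × ℕ × ℕ) × Str) × Str) × List Tab => w.1.1.1 :=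
    Primrec.fst.comp (Primrec.fst.comp Primrec.fst)
  refine XRE.and (XRE.of_primrec ?_) ?_
  · exact Primrec.nat_le.comp
      (primrec_two_pow.comp (Primrec.snd.comp (Primrec.snd.comp (Primrec.snd.comp
        (Primrec.snd.comp hq)))))
      (Primrec.list_length.comp (primrec_ddp.comp Primrec.snd))
  · refine XRE.forall_mem (P := fun v : ((((ℕ × ℕ × ℕ × ℕ × ℕ) × Str) × Str) × List Tab) × Tab =>
      Rel4 V (((v.1.1.1.1.1, v.1.1.1.1.2.1, v.1.1.1.1.2.2.1, v.1.1.1.1.2.2.2.1), v.1.1.2), v.2))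
      ?_ Primrec.snd
    have hq' : Primrec fun v : ((((ℕ × ℕ × ℕ × ℕ × ℕ) × Str) × Str) × List Tab) × Tab =>
        v.1.1.1.1 := hq.comp Primrec.fst
    exact (xre_rel4 hV).comp
      (f := fun v : ((((ℕ × ℕ × ℕ × ℕ × ℕ) × Str) × Str) × List Tab) × Tab =>
        (((v.1.1.1.1.1, v.1.1.1.1.2.1, v.1.1.1.1.2.2.1, v.1.1.1.1.2.2.2.1), v.1.1.2), v.2))
      (Primrec.pair (Primrec.pair (Primrec.pair (Primrec.fst.comp hq')
        (Primrec.pair (Primrec.fst.comp (Primrec.snd.comp hq'))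
        (Primrec.pair (Primrec.fst.comp (Primrec.snd.comp (Primrec.snd.comp hq')))
        (Primrec.fst.comp (Primrec.snd.comp (Primrec.snd.comp (Primrec.snd.comp hq')))))))
        (Primrec.snd.comp (Primrec.fst.comp Primrec.fst))) Primrec.snd)

/-- Parameters `(D, L, M, l, t)`: the table `u.2` is within the bounds `D, L`, has a program of
length at most `M`, each entry has complexity at most its number, the table has a program of
length at most `M + t - a` given an entry of number `a`, and it has a plain program of length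
less than `l` given any admissible set of tables containing it. -/
def Rel3 (U V : Str × Str →. Str) (u : ((ℕ × ℕ × ℕ × ℕ × ℕ) × Str) × Tab) : Prop :=
  (TabOK u.1.1.1 u.1.1.2.1 u.2 ∧ Desc V 0 u.1.1.2.2.1 (codeT u.2) []) ∧
    ((∀ z ∈ u.2, Desc V 0 z.1 z.2 [] ∧
      Desc V z.1 (u.1.1.2.2.1 + u.1.1.2.2.2.2) (codeT u.2) z.2) ∧
    ∀ A ∈ famList (famBound u.1.1.1 u.1.1.2.1) u.1.1.2.2.1 u.1.1.2.2.2.2 u.2,
      Desc U 1 u.1.1.2.2.2.1 (codeT u.2) (una (encode A)))

lemma xre_rel3 (hU : RecursiveIn {oracleOf X} U) (hV : RecursiveIn {oracleOf X} V) :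
    XRE X (Rel3 U V) := by
  have hq : Primrec fun u : ((ℕ × ℕ × ℕ × ℕ × ℕ) × Str) × Tab => u.1.1 :=
    Primrec.fst.comp Primrec.fst
  have hD := Primrec.fst.comp hq
  have hL := Primrec.fst.comp (Primrec.snd.comp hq)
  have hM := Primrec.fst.comp (Primrec.snd.comp (Primrec.snd.comp hq))
  have hl := Primrec.fst.comp (Primrec.snd.comp (Primrec.snd.comp (Primrec.snd.comp hq)))
  have ht := Primrec.snd.comp (Primrec.snd.comp (Primrec.snd.comp (Primrec.snd.comp hq)))
  refine XRE.and (XRE.and (XRE.of_primrec ?_) ?_) (XRE.and ?_ ?_)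
  · exact primrec_tabOK.comp (f := fun u : ((ℕ × ℕ × ℕ × ℕ × ℕ) × Str) × Tab =>
      ((u.1.1.1, u.1.1.2.1), u.2)) (Primrec.pair (Primrec.pair hD hL) Primrec.snd)
  · exact (xre_desc hV).comp (f := fun u : ((ℕ × ℕ × ℕ × ℕ × ℕ) × Str) × Tab =>
      ((0, u.1.1.2.2.1), (codeT u.2, ([] : Str))))
      (Primrec.pair (Primrec.pair (Primrec.const 0) hM)
        (Primrec.pair (primrec_codeT.comp Primrec.snd) (Primrec.const [])))
  · refine XRE.forall_mem (P := fun v : (((ℕ × ℕ × ℕ × ℕ × ℕ) × Str) × Tab) × Item =>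
      Desc V 0 v.2.1 v.2.2 [] ∧
      Desc V v.2.1 (v.1.1.1.2.2.1 + v.1.1.1.2.2.2.2) (codeT v.1.2) v.2.2) ?_ Primrec.snd
    refine XRE.and ?_ ?_
    · exact (xre_desc hV).comp (f := fun v : (((ℕ × ℕ × ℕ × ℕ × ℕ) × Str) × Tab) × Item =>
        ((0, v.2.1), (v.2.2, ([] : Str))))
        (Primrec.pair (Primrec.pair (Primrec.const 0) (Primrec.fst.comp Primrec.snd))
          (Primrec.pair (Primrec.snd.comp Primrec.snd) (Primrec.const [])))
    · exact (xre_desc hV).comp (f := fun v : (((ℕ × ℕ × ℕ × ℕ × ℕ) × Str) × Tab) × Item =>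
        ((v.2.1, v.1.1.1.2.2.1 + v.1.1.1.2.2.2.2), (codeT v.1.2, v.2.2)))
        (Primrec.pair (Primrec.pair (Primrec.fst.comp Primrec.snd)
          (Primrec.nat_add.comp (hM.comp Primrec.fst) (ht.comp Primrec.fst)))
          (Primrec.pair (primrec_codeT.comp (Primrec.snd.comp Primrec.fst))
            (Primrec.snd.comp Primrec.snd)))
  · refine XRE.forall_mem (P := fun v : (((ℕ × ℕ × ℕ × ℕ × ℕ) × Str) × Tab) × List Tab =>
      Desc U 1 v.1.1.1.2.2.2.1 (codeT v.1.2) (una (encode v.2))) ?_ ?_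
    · exact (xre_desc hU).comp (f := fun v : (((ℕ × ℕ × ℕ × ℕ × ℕ) × Str) × Tab) × List Tab =>
        ((1, v.1.1.1.2.2.2.1), (codeT v.1.2, una (encode v.2))))
        (Primrec.pair (Primrec.pair (Primrec.const 1) (hl.comp Primrec.fst))
          (Primrec.pair (primrec_codeT.comp (Primrec.snd.comp Primrec.fst))
            (primrec_una.comp (Primrec.encode.comp Primrec.snd))))
    · have hb : Primrec fun u : ((ℕ × ℕ × ℕ × ℕ × ℕ) × Str) × Tab =>
          famBound u.1.1.1 u.1.1.2.1 := primrec_famBound.comp hD hL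
      have hp : Primrec fun u : ((ℕ × ℕ × ℕ × ℕ × ℕ) × Str) × Tab =>
          (((famBound u.1.1.1 u.1.1.2.1, (u.1.1.2.2.1, u.1.1.2.2.2.2)), u.2) :
            (ℕ × (ℕ × ℕ)) × Tab) :=
        Primrec.pair (Primrec.pair hb (Primrec.pair hM ht)) Primrec.snd
      have hf := Primrec.comp (f := fun u : (ℕ × (ℕ × ℕ)) × Tab =>
        famList u.1.1 u.1.2.1 u.1.2.2 u.2) primrec_famList hp
      exact hf

end Pool.Agent.J6H86.OracleSim
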