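import Pool.Agent.J6H86.OracleSim.NormalForm

set_option autoImplicit false

/-!
# Searching through prefixes of the oracle is recursive in the oracle
-/

namespace Pool.Agent.J6H86.OracleSim

open Encodable Primrec

/-- `RC O g`: the total function `g` is recursive in `O`. -/
def RC (O : Set (ℕ →. ℕ)) (g : ℕ → ℕ) : Prop := Nat.RecursiveIn O fun n => Part.some (g n)

lemma RC.prim {O : Set (ℕ →. ℕ)} {g : ℕ → ℕ} (hg : Primrec g) : RC O g :=
  (Primrec.nat_iff.1 hg).recursiveIn

lemma RC.of_eq {O : Set (ℕ →. ℕ)} {f g : ℕ → ℕ} (hf : RC O f) (h : ∀ n, f n = g n) : RC O g := by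
  have : f = g := funext h
  exact this ▸ hf

lemma RC.comp {O : Set (ℕ →. ℕ)} {f g : ℕ → ℕ} (hf : RC O f) (hg : RC O g) :
    RC O (fun n => f (g n)) := by
  refine Nat.RecursiveIn.of_eq (Nat.RecursiveIn.comp hf hg) fun n => ?_
  exact Part.bind_some (g n) fun n => Part.some (f n)

lemma RC.pair {O : Set (ℕ →. ℕ)} {f g : ℕ → ℕ} (hf : RC O f) (hg : RC O g) :
    RC O (fun n => Nat.pair (f n) (g n)) := by
  refine Nat.RecursiveIn.of_eq (Nat.RecursiveIn.pair hf hg) fun n => ?_
  simp [Seq.seq]

lemma RC.comp2 {O : Set (ℕ →. ℕ)} {P : ℕ → ℕ → ℕ} {f g : ℕ → ℕ} (hP : Primrec₂ P)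
    (hf : RC O f) (hg : RC O g) : RC O (fun n => P (f n) (g n)) := by
  have h1 : RC O (fun z : ℕ => P z.unpair.1 z.unpair.2) :=
    RC.prim (hP.comp (Primrec.fst.comp Primrec.unpair) (Primrec.snd.comp Primrec.unpair))
  exact (h1.comp (hf.pair hg)).of_eq fun n => by simp

lemma RC.oracle (X : ℕ → Bool) : RC {oracleOf X} (fun n => (X n).toNat) :=
  Nat.RecursiveIn.oracle _ (Set.mem_singleton _)

lemma RC.prec {O : Set (ℕ →. ℕ)} {f h : ℕ → ℕ} (hf : RC O f) (hh : RC O h) :
    RC O (fun p => (Nat.rec (f p.unpair.1)
      (fun y IH => h (Nat.pair p.unpair.1 (Nat.pair y IH))) p.unpair.2 : ℕ)) := by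
  refine Nat.RecursiveIn.of_eq (Nat.RecursiveIn.prec hf hh) fun p => ?_
  dsimp only
  generalize p.unpair.1 = a
  generalize p.unpair.2 = n
  induction n with
  | zero => rfl
  | succ n ih =>
    simp only [ih]
    exact Part.bind_some _ _

lemma RC.pre (X : ℕ → Bool) : RC {oracleOf X} (fun t => encode (pre X t)) := by
  have hstep : RC {oracleOf X} (fun z : ℕ => encode
      (((decode z.unpair.2.unpair.2 : Option (List Bool)).getD []) ++
        [(decide (0 < (X z.unpair.2.unpair.1).toNat))])) := by
    have hP : Primrec₂ (fun i b : ℕ => encode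
        (((decode i : Option (List Bool)).getD []) ++ [decide (0 < b)])) := by
      refine Primrec.encode.comp₂ ?_
      refine Primrec.list_append.comp₂ ?_ ?_
      · exact (Primrec.option_getD.comp₂ ((Primrec.decode.comp Primrec.fst).to₂)
          (Primrec₂.const []))
      · refine Primrec.list_cons.comp₂ ?_ (Primrec₂.const [])
        exact ((Primrec.nat_lt.comp (Primrec.const 0) Primrec.snd).decide).to₂
    have h1 : RC {oracleOf X} (fun z : ℕ => z.unpair.2.unpair.2) :=
      RC.prim (Primrec.snd.comp (Primrec.unpair.comp (Primrec.snd.comp Primrec.unpair)))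
    have h2 : RC {oracleOf X} (fun z : ℕ => z.unpair.2.unpair.1) :=
      RC.prim (Primrec.fst.comp (Primrec.unpair.comp (Primrec.snd.comp Primrec.unpair)))
    exact RC.comp2 hP h1 ((RC.oracle X).comp h2)
  have h0 : RC {oracleOf X} (fun _ : ℕ => encode ([] : List Bool)) := RC.prim (Primrec.const _)
  have h := RC.prec h0 hstep
  have hin : RC {oracleOf X} (fun t : ℕ => Nat.pair 0 t) :=
    RC.prim (Primrec₂.natPair.comp (Primrec.const 0) Primrec.id)
  refine (h.comp hin).of_eq fun t => ?_
  simp only [Nat.unpair_pair]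
  induction t with
  | zero => simp [OracleSim.pre]
  | succ t ih =>
    simp only [ih, encodek, Option.getD_some]
    rw [pre_succ]
    cases X t <;> simp

/-- The partial function searching for a prefix of `X` on which `g` answers. -/
def searchFn (X : ℕ → Bool) {α β : Type} (g : List Bool → α → Option β) (a : α) : Part β :=
  Nat.rfindOpt fun t => g (OracleSim.pre X t) a

theorem searchFn_recursiveIn (X : ℕ → Bool) {α β : Type} [Primcodable α] [Primcodable β]
    {g : List Bool → α → Option β} (hg : Primrec₂ g) :
    RecursiveIn {oracleOf X} (fun a : α => searchFn X g a) := by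
  -- the encoded answer
  let G : ℕ → ℕ → ℕ := fun a c => encode
    ((decode a : Option α).bind fun a => (decode c : Option (List Bool)).bind fun σ => g σ a)
  have hG : Primrec₂ G := by
    refine Primrec.encode.comp₂ ?_
    have h1 : Primrec fun z : ℕ × ℕ => (decode z.1 : Option α).bind fun a =>
        (decode z.2 : Option (List Bool)).bind fun σ => g σ a := by
      refine Primrec.option_bind (Primrec.decode.comp Primrec.fst) ?_
      have h2 : Primrec fun w : (ℕ × ℕ) × α =>
          (decode w.1.2 : Option (List Bool)).bind fun σ => g σ w.2 := by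
        refine Primrec.option_bind (Primrec.decode.comp (Primrec.snd.comp Primrec.fst)) ?_
        exact (hg.comp Primrec.snd (Primrec.snd.comp Primrec.fst)).to₂
      exact h2.to₂
    exact h1.to₂
  let T : ℕ → ℕ := fun z => G z.unpair.1 (encode (OracleSim.pre X z.unpair.2))
  have hT : RC {oracleOf X} T :=
    RC.comp2 hG (RC.prim (Primrec.fst.comp Primrec.unpair))
      ((RC.pre X).comp (RC.prim (Primrec.snd.comp Primrec.unpair)))
  have hT' : RC {oracleOf X} (fun z => if T z = 0 then 1 else 0) := by
    have hi : Primrec fun x : ℕ => if x = 0 then 1 else 0 :=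
      Primrec.ite (Primrec.eq.comp Primrec.id (Primrec.const 0)) (Primrec.const 1)
        (Primrec.const 0)
    exact (RC.prim hi).comp hT
  have hτ := Nat.RecursiveIn.rfind hT'
  have hid : Nat.RecursiveIn {oracleOf X} (fun n => Part.some n) :=
    RC.prim (g := fun n => n) Primrec.id
  have hpair := Nat.RecursiveIn.pair hid hτ
  have hout : RC {oracleOf X} (fun z => T z - 1) :=
    RC.comp2 (P := fun a b => a - b) Primrec.nat_sub hT (RC.prim (Primrec.const 1))
  have hfin := Nat.RecursiveIn.comp hout hpair
  refine Nat.RecursiveIn.of_eq hfin fun n => ?_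
  apply Part.ext
  intro b
  have hL : (b ∈ Part.bind (Nat.pair <$> (Part.some n) <*>
        (Nat.rfind fun t => (fun m => decide (m = 0)) <$>
          (Part.some (if T (Nat.pair n t) = 0 then 1 else 0) : Part ℕ)))
        (fun z => Part.some (T z - 1))) ↔
      ∃ t, T (Nat.pair n t) ≠ 0 ∧ (∀ m < t, T (Nat.pair n m) = 0) ∧
        b = T (Nat.pair n t) - 1 := by
    rw [Part.mem_bind_iff]
    constructor
    · rintro ⟨z, hz, hb⟩
      simp only [Seq.seq, Part.mem_bind_iff, Part.map_eq_map, Part.mem_map_iff,
        Part.mem_some_iff] at hz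
      obtain ⟨g', ⟨x, hx, rfl⟩, t, ht, rfl⟩ := hz
      subst hx
      obtain ⟨h1, h2⟩ := Nat.mem_rfind.1 ht
      simp only [Part.map_some, Part.mem_some_iff] at h1 h2 hb
      refine ⟨t, ?_, ?_, hb⟩
      · intro h0
        rw [if_pos h0] at h1
        simp at h1
      · intro m hm
        by_contra hne
        have := h2 hm
        rw [if_neg hne] at this
        simp at this
    · rintro ⟨t, h1, h2, rfl⟩
      refine ⟨Nat.pair n t, ?_, Part.mem_some _⟩
      simp only [Seq.seq, Part.mem_bind_iff, Part.map_eq_map, Part.mem_map_iff,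
        Part.mem_some_iff]
      refine ⟨Nat.pair n, ⟨n, rfl, rfl⟩, t, ?_, rfl⟩
      refine Nat.mem_rfind.2 ?_
      simp only [Part.map_some, Part.mem_some_iff]
      refine ⟨?_, ?_⟩
      · rw [if_neg h1]; simp
      · intro m hm
        rw [if_pos (h2 m hm)]; simp
  refine Iff.trans hL ?_
  have hR : (b ∈ Part.bind (decode n : Option α) fun a => (searchFn X g a).map encode) ↔
      ∃ a, decode n = some a ∧ ∃ b', b' ∈ searchFn X g a ∧ encode b' = b := by
    rw [Part.mem_bind_iff]
    simp only [Part.mem_map_iff]
    constructor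
    · rintro ⟨a, ha, hb⟩
      exact ⟨a, by simpa using ha, hb⟩
    · rintro ⟨a, ha, hb⟩
      exact ⟨a, by simpa using ha, hb⟩
  refine Iff.trans ?_ hR.symm
  have hTval : ∀ t, T (Nat.pair n t) = encode ((decode n : Option α).bind fun a =>
      g (OracleSim.pre X t) a) := by
    intro t
    simp only [T, G, Nat.unpair_pair, encodek, Option.bind_some]
  rcases hn : (decode n : Option α) with _ | a
  · simp only [hn, Option.bind_none, encode_none] at hTval
    constructor
    · rintro ⟨t, h1, _⟩
      exact absurd (hTval t) h1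
    · rintro ⟨a, ha, _⟩
      cases ha
  · simp only [hn, Option.bind_some] at hTval
    constructor
    · rintro ⟨t, h1, h2, hb⟩
      refine ⟨a, rfl, ?_⟩
      rw [hTval] at h1 hb
      rcases hg' : g (OracleSim.pre X t) a with _ | b'
      · rw [hg'] at h1; simp at h1
      · refine ⟨b', ?_, ?_⟩
        · unfold searchFn Nat.rfindOpt
          rw [Part.mem_bind_iff]
          refine ⟨t, ?_, by simp [hg']⟩
          refine Nat.mem_rfind.2 ⟨?_, ?_⟩
          · simp [hg']
          · intro m hm
            have := h2 m hm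
            rw [hTval] at this
            rcases hgm : g (OracleSim.pre X m) a with _ | b''
            · simp [hgm]
            · rw [hgm] at this; simp at this
        · rw [hg'] at hb
          rw [hb]; simp
    · rintro ⟨a', ha', b', hb', rfl⟩
      cases ha'
      unfold searchFn Nat.rfindOpt at hb'
      rw [Part.mem_bind_iff] at hb'
      obtain ⟨t, ht, hb'⟩ := hb'
      have hb'' : g (OracleSim.pre X t) a = some b' := by simpa using hb'
      obtain ⟨h1, h2⟩ := Nat.mem_rfind.1 ht
      refine ⟨t, ?_, ?_, ?_⟩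
      · rw [hTval, hb'']; simp
      · intro m hm
        have := h2 hm
        rw [hTval]
        rcases hgm : g (OracleSim.pre X m) a with _ | b''
        · simp
        · simp [hgm] at this
      · rw [hTval, hb'']; simp

end Pool.Agent.J6H86.OracleSim
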