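import Pool.Agent.J6H86.OracleSim.Relations

set_option autoImplicit false

/-!
# Bounds polynomial in `n`, counting lemmas and basic facts on complexity
-/

namespace Pool.Agent.J6H86.OracleSim

open Encodable

/-- `x + 1 ≤ 2 ^ (κ g)`. -/
def Small (g κ x : ℕ) : Prop := x + 1 ≤ 2 ^ (κ * g)

section small
variable {g κ₁ κ₂ x y : ℕ}

lemma Small.mono (h : Small g κ₁ x) (hy : y ≤ x) : Small g κ₁ y :=
  le_trans (by unfold Small at h; omega) h

lemma succ_mul_succ_le (a b : ℕ) : a + b + 1 ≤ (a + 1) * (b + 1) ∧ a * b + 1 ≤ (a + 1) * (b + 1) := by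
  constructor <;> nlinarith [Nat.zero_le (a * b)]

lemma Small.prod (h₁ : Small g κ₁ x) (h₂ : Small g κ₂ y) :
    (x + 1) * (y + 1) ≤ 2 ^ ((κ₁ + κ₂) * g) := by
  have e : (κ₁ + κ₂) * g = κ₁ * g + κ₂ * g := by ring
  rw [e, pow_add]
  exact Nat.mul_le_mul h₁ h₂

lemma Small.add (h₁ : Small g κ₁ x) (h₂ : Small g κ₂ y) : Small g (κ₁ + κ₂) (x + y) :=
  (succ_mul_succ_le x y).1.trans (h₁.prod h₂)

lemma Small.mul (h₁ : Small g κ₁ x) (h₂ : Small g κ₂ y) : Small g (κ₁ + κ₂) (x * y) :=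
  (succ_mul_succ_le x y).2.trans (h₁.prod h₂)

lemma Small.pair (h₁ : Small g κ₁ x) (h₂ : Small g κ₂ y) :
    Small g ((κ₁ + κ₂) * 2) (Nat.pair x y) := by
  have h := Nat.pair_lt_max_add_one_sq x y
  have h3 : max x y + 1 ≤ (x + 1) * (y + 1) := by
    have := (succ_mul_succ_le x y).1
    omega
  have h4 : (max x y + 1) ^ 2 ≤ ((x + 1) * (y + 1)) ^ 2 := Nat.pow_le_pow_left h3 2
  have h5 : ((x + 1) * (y + 1)) ^ 2 ≤ (2 ^ ((κ₁ + κ₂) * g)) ^ 2 :=
    Nat.pow_le_pow_left (h₁.prod h₂) 2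
  unfold Small
  have h6 : (2 ^ ((κ₁ + κ₂) * g)) ^ 2 = 2 ^ ((κ₁ + κ₂) * 2 * g) := by
    rw [← pow_mul]; congr 1; ring
  omega

lemma Small.const (hg : 1 ≤ g) (c : ℕ) : Small g c c := by
  unfold Small
  have h1 : c + 1 ≤ 2 ^ c := Nat.lt_two_pow_self
  have h2 : 2 ^ c ≤ 2 ^ (c * g) :=
    Nat.pow_le_pow_right (by norm_num) (Nat.le_mul_of_pos_right c hg)
  omega

lemma Small.self (g : ℕ) : Small g 1 g := by
  unfold Small
  rw [one_mul]
  exact Nat.lt_two_pow_self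

lemma Small.log (h : Small g κ₁ x) : Nat.log 2 (x + 1) ≤ κ₁ * g := by
  have h1 : Nat.log 2 (x + 1) ≤ Nat.log 2 (2 ^ (κ₁ * g)) := Nat.log_mono_right h
  rwa [Nat.log_pow (by norm_num)] at h1

end small

lemma small_n {n : ℕ} (hn : 2 ≤ n) : Small (Nat.log 2 n) 2 n := by
  have h1 : n < 2 ^ (Nat.log 2 n + 1) := Nat.lt_pow_succ_log_self (by norm_num) n
  have h2 : 1 ≤ Nat.log 2 n := Nat.log_pos (by norm_num) hn
  have h3 : 2 ^ (Nat.log 2 n + 1) ≤ 2 ^ (2 * Nat.log 2 n) :=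
    Nat.pow_le_pow_right (by norm_num) (by omega)
  unfold Small
  omega

lemma small_pow {n : ℕ} (hn : 2 ≤ n) (k : ℕ) : Small (Nat.log 2 n) (2 * k + 1) (n ^ k) := by
  have h1 := small_n hn
  have h2 : 1 ≤ Nat.log 2 n := Nat.log_pos (by norm_num) hn
  unfold Small at h1 ⊢
  have h3 : n ^ k ≤ (2 ^ (2 * Nat.log 2 n)) ^ k := Nat.pow_le_pow_left (by omega) k
  have h4 : 1 ≤ n ^ k := Nat.one_le_pow _ _ (by omega)
  have h5 : (2 ^ (2 * Nat.log 2 n)) ^ k * 2 ≤ 2 ^ ((2 * k + 1) * Nat.log 2 n) := by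
    rw [← pow_mul, ← pow_succ]
    refine Nat.pow_le_pow_right (by norm_num) ?_
    have : (2 * k + 1) * Nat.log 2 n = 2 * Nat.log 2 n * k + Nat.log 2 n := by ring
    omega
  omega

/-! ### Complexity -/

lemma complexity_le {D : Str × Str →. Str} {x y p : Str} (h : x ∈ D (p, y)) :
    complexity D x y ≤ p.length := Nat.sInf_le ⟨p, rfl, h⟩

lemma exists_program {D : Str × Str →. Str} {x y : Str} (h : ∃ p, x ∈ D (p, y)) :
    ∃ p : Str, p.length = complexity D x y ∧ x ∈ D (p, y) := by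
  obtain ⟨p, hp⟩ := h
  exact Nat.sInf_mem (s := {m : ℕ | ∃ p : Str, p.length = m ∧ x ∈ D (p, y)}) ⟨_, p, rfl, hp⟩

lemma trivial_bound {X : ℕ → Bool} {V : Str × Str →. Str} (hV : IsOptimalIn X V) :
    ∃ c : ℕ, ∀ x y : Str, ∃ p : Str, p.length ≤ x.length + c ∧ x ∈ V (p, y) := by
  obtain ⟨c, hc⟩ := hV.2 (fun z => Part.some z.1) Computable.fst.partrec.recursiveIn
  exact ⟨c, fun x y => hc x y x (Part.mem_some _)⟩

lemma oracleOf_false_partrec : Partrec (oracleOf fun _ => false) :=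
  (Computable.const 0).partrec

lemma isOptimalIn_of_isOptimal {U : Str × Str →. Str} (hU : IsOptimal U) :
    IsOptimalIn (fun _ => false) U := by
  refine ⟨hU.1.recursiveIn, fun D' hD' => ?_⟩
  refine hU.2 D' (hD'.partrec_of_oracle ?_)
  intro g hg
  rw [Set.mem_singleton_iff] at hg
  subst hg
  exact oracleOf_false_partrec

/-! ### Counting -/

/-- A property of lists that holds for the empty list and bounds lengths has a longest
witness. -/
lemma exists_longest {α : Type} (P : List α → Prop) (h0 : P []) (B : ℕ)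
    (hB : ∀ L, P L → L.length ≤ B) : ∃ L, P L ∧ ∀ L', P L' → L'.length ≤ L.length := by
  classical
  have hex : ∃ m, (∃ L, P L ∧ L.length = m) ∧ ∀ m', (∃ L, P L ∧ L.length = m') → m' ≤ m := by
    have hbdd : BddAbove {m | ∃ L, P L ∧ L.length = m} :=
      ⟨B, by rintro m ⟨L, hL, rfl⟩; exact hB L hL⟩
    have hne : {m | ∃ L, P L ∧ L.length = m}.Nonempty := ⟨0, [], h0, rfl⟩
    exact ⟨_, Nat.sSup_mem hne hbdd, fun m' hm' => le_csSup hbdd hm'⟩
  obtain ⟨m, ⟨L, hL, rfl⟩, hmax⟩ := hex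
  exact ⟨L, hL, fun L' hL' => hmax _ ⟨L', hL', rfl⟩⟩

lemma rel4_count {V : Str × Str →. Str} {D L M a : ℕ} {s : Str} (F : List Tab) (hF : F.Nodup)
    (h : ∀ y ∈ F, Rel4 V (((D, L, M, a), s), y)) : F.length < 2 ^ (M + 1) := by
  refine length_lt_of_programs codeT_injective (fun p => V (p, [])) (M + 1) F hF ?_
  intro y hy
  obtain ⟨p, hp1, hp2⟩ := (h y hy).2
  exact ⟨p, by simp only at hp1; omega, hp2⟩

lemma rel5_count {V : Str × Str →. Str} {D L M a j lam : ℕ} {c : Str} (hlam : L ≤ 2 ^ lam)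
    (Ls : List Str) (hLs : Ls.Nodup)
    (h : ∀ s ∈ Ls, Rel5 V (((D, L, M, a, j), c), s)) :
    Ls.length * 2 ^ j ≤ 2 ^ (M + 1 + lam) := by
  classical
  choose! F hF1 hF2 using h
  simp only at hF1 hF2
  let P : Finset (Σ _ : Str, Tab) := Ls.toFinset.sigma fun s => (ddp (F s)).toFinset
  have hP1 : Ls.length * 2 ^ j ≤ P.card := by
    rw [Finset.card_sigma, ← List.toFinset_card_of_nodup hLs, ← smul_eq_mul]
    refine Finset.card_nsmul_le_sum _ _ _ fun s hs => ?_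
    rw [List.toFinset_card_of_nodup (nodup_ddp _)]
    exact hF1 s (List.mem_toFinset.1 hs)
  have hmemP : ∀ x ∈ P, Rel4 V (((D, L, M, a), x.1), x.2) := by
    intro x hx
    rw [Finset.mem_sigma, List.mem_toFinset, List.mem_toFinset, mem_ddp] at hx
    exact hF2 x.1 hx.1 x.2 hx.2
  have hP2 : P.card ≤ L * (P.image fun x => x.2).card := by
    refine Finset.card_le_mul_card_image P L fun y hy => ?_
    rw [Finset.mem_image] at hy
    obtain ⟨x0, hx0, rfl⟩ := hy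
    have hlen : (x0.2).length ≤ L := (hmemP x0 hx0).1.1.1
    have hcard : (P.filter fun x => x.2 = x0.2).card ≤ (x0.2).toFinset.card := by
      refine Finset.card_le_card_of_injOn (fun x => (a, x.1)) ?_ ?_
      · intro x hx
        rw [Finset.mem_coe, Finset.mem_filter] at hx
        rw [Finset.mem_coe, List.mem_toFinset, ← hx.2]
        exact (hmemP x hx.1).1.2
      · rintro ⟨s1, y1⟩ hx ⟨s2, y2⟩ hy hxy
        rw [Finset.mem_coe, Finset.mem_filter] at hx hy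
        simp only [Prod.mk.injEq, true_and] at hxy hx hy
        rw [hxy, hx.2, hy.2]
    exact hcard.trans ((List.toFinset_card_le _).trans hlen)
  have hP3 : (P.image fun x => x.2).card < 2 ^ (M + 1) := by
    rw [← Finset.length_toList]
    refine length_lt_of_programs codeT_injective (fun p => V (p, [])) (M + 1) _
      (Finset.nodup_toList _) ?_
    intro y hy
    rw [Finset.mem_toList, Finset.mem_image] at hy
    obtain ⟨x, hx, rfl⟩ := hy
    obtain ⟨p, hp1, hp2⟩ := (hmemP x hx).2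
    exact ⟨p, by simp only at hp1; omega, hp2⟩
  calc Ls.length * 2 ^ j ≤ P.card := hP1
    _ ≤ L * (P.image fun x => x.2).card := hP2
    _ ≤ 2 ^ lam * 2 ^ (M + 1) := Nat.mul_le_mul hlam hP3.le
    _ = 2 ^ (M + 1 + lam) := by rw [← pow_add]; congr 1; ring

end Pool.Agent.J6H86.OracleSim
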