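import Pool.Agent.J6H86.OracleSim.Defs

set_option autoImplicit false

/-!
# Codes of numbers and pairs by short strings
-/

namespace Pool.Agent.J6H86.OracleSim

open Encodable Primrec

/-- The next string in the length-increasing order. -/
def nxt : Str → Str
  | [] => [false]
  | false :: l => true :: l
  | true :: l => false :: nxt l

/-- The place of a string in the length-increasing order. -/
def val : Str → ℕ
  | [] => 0
  | false :: l => 2 * val l + 1
  | true :: l => 2 * val l + 2

/-- The string at place `m` in the length-increasing order. -/
def bin (m : ℕ) : Str := nxt^[m] []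

lemma val_nxt (l : Str) : val (nxt l) = val l + 1 := by
  induction l with
  | nil => rfl
  | cons b l ih => cases b <;> simp [nxt, val, ih]; ring

lemma val_bin (m : ℕ) : val (bin m) = m := by
  induction m with
  | zero => rfl
  | succ m ih =>
    rw [bin, Function.iterate_succ_apply', ← bin, val_nxt, ih]

lemma bin_injective : Function.Injective bin := fun a b h => by
  rw [← val_bin a, ← val_bin b, h]

lemma val_injective : Function.Injective val := by
  intro a
  induction a with
  | nil =>
    intro b h
    cases b with
    | nil => rfl
    | cons c b => cases c <;> simp [val] at h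
  | cons x a ih =>
    intro b h
    cases b with
    | nil => cases x <;> simp [val] at h
    | cons c b =>
      cases x <;> cases c <;> simp only [val] at h
      · rw [ih (show val a = val b by omega)]
      · omega
      · omega
      · rw [ih (show val a = val b by omega)]

lemma two_pow_le_val (l : Str) : 2 ^ l.length ≤ val l + 1 := by
  induction l with
  | nil => simp [val]
  | cons b l ih =>
    cases b <;> simp only [List.length_cons, pow_succ, val] <;> omega

lemma val_lt (l : Str) : val l + 1 < 2 ^ (l.length + 1) := by
  induction l with
  | nil => simp [val]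
  | cons b l ih =>
    cases b <;> simp only [List.length_cons, val] <;> rw [pow_succ] <;> omega

lemma bin_length_le (m : ℕ) : (bin m).length ≤ Nat.log 2 (m + 1) := by
  have h := two_pow_le_val (bin m)
  rw [val_bin] at h
  exact Nat.le_log_of_pow_le (by norm_num) h

lemma primrec_nxt : Primrec nxt := by
  have h : Primrec fun l : Str => (List.recOn l [false]
      (fun b l IH => cond b (false :: IH) (true :: l)) : Str) := by
    refine Primrec.list_rec (f := fun l : Str => l) (g := fun _ => [false])
      (h := fun _ z => cond z.1 (false :: z.2.2) (true :: z.2.1)) Primrec.id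
      (Primrec.const _) ?_
    have h1 : Primrec fun w : Str × (Bool × Str × Str) =>
        cond w.2.1 (false :: w.2.2.2) (true :: w.2.2.1) := by
      refine Primrec.cond (Primrec.fst.comp Primrec.snd) ?_ ?_
      · exact Primrec.list_cons.comp (Primrec.const false)
          (Primrec.snd.comp (Primrec.snd.comp Primrec.snd))
      · exact Primrec.list_cons.comp (Primrec.const true)
          (Primrec.fst.comp (Primrec.snd.comp Primrec.snd))
    exact h1.to₂
  refine h.of_eq fun l => ?_
  induction l with
  | nil => rfl
  | cons b l ih => cases b <;> simp [nxt, ← ih]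

lemma primrec_bin : Primrec bin :=
  Primrec.nat_iterate Primrec.id (Primrec.const []) (primrec_nxt.comp Primrec.snd).to₂

/-- A self-delimiting copy of `l` followed by `r`. -/
def enc (l r : Str) : Str := l.foldr (fun b acc => true :: b :: acc) (false :: r)

lemma enc_length (l r : Str) : (enc l r).length = 2 * l.length + 1 + r.length := by
  induction l with
  | nil => simp [enc]; ring
  | cons b l ih =>
    have : enc (b :: l) r = true :: b :: enc l r := rfl
    rw [this]
    simp only [List.length_cons, ih]
    ring

lemma enc_inj {l r l' r' : Str} (h : enc l r = enc l' r') : l = l' ∧ r = r' := by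
  induction l generalizing l' with
  | nil =>
    cases l' with
    | nil => simpa [enc] using h
    | cons b l' => simp [enc] at h
  | cons b l ih =>
    cases l' with
    | nil => simp [enc] at h
    | cons b' l' =>
      have e1 : enc (b :: l) r = true :: b :: enc l r := rfl
      have e2 : enc (b' :: l') r' = true :: b' :: enc l' r' := rfl
      rw [e1, e2] at h
      simp only [List.cons.injEq, true_and] at h
      obtain ⟨rfl, h⟩ := h
      obtain ⟨rfl, rfl⟩ := ih h
      exact ⟨rfl, rfl⟩

lemma primrec_enc : Primrec₂ enc := by
  have h : Primrec fun z : Str × Str =>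
      z.1.foldr (fun b acc => true :: b :: acc) (false :: z.2) := by
    refine Primrec.list_foldr (h := fun _ w => true :: w.1 :: w.2) Primrec.fst
      (Primrec.list_cons.comp (Primrec.const false) Primrec.snd) ?_
    have h1 : Primrec fun w : (Str × Str) × (Bool × Str) => true :: w.2.1 :: w.2.2 :=
      Primrec.list_cons.comp (Primrec.const true) (Primrec.list_cons.comp
        (Primrec.fst.comp Primrec.snd) (Primrec.snd.comp Primrec.snd))
    exact h1.to₂
  exact h.to₂

/-- The code of a parameter and an index. -/
def encP {γ : Type} [Encodable γ] (q : γ) (j : ℕ) : Str := enc (bin (encode q)) (bin j)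

lemma encP_inj {γ : Type} [Encodable γ] {q q' : γ} {j j' : ℕ} (h : encP q j = encP q' j') :
    q = q' ∧ j = j' := by
  obtain ⟨h1, h2⟩ := enc_inj h
  exact ⟨encode_injective (bin_injective h1), bin_injective h2⟩

lemma encP_length {γ : Type} [Encodable γ] (q : γ) (j : ℕ) :
    (encP q j).length ≤ 2 * Nat.log 2 (encode q + 1) + 1 + Nat.log 2 (j + 1) := by
  rw [encP, enc_length]
  have h1 := bin_length_le (encode q)
  have h2 := bin_length_le j
  omega

lemma primrec_encP {γ : Type} [Primcodable γ] : Primrec fun z : γ × ℕ => encP z.1 z.2 :=
  primrec_enc.comp (primrec_bin.comp (Primrec.encode.comp Primrec.fst))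
    (primrec_bin.comp Primrec.snd)

/-- Counting programs: a list without repetitions all of whose members have programs of
length less than `l` has fewer than `2 ^ l` members. -/
lemma length_lt_of_programs {α : Type} {E : α → Str} (hE : Function.Injective E)
    (f : Str → Part Str) (l : ℕ) (L : List α) (hnd : L.Nodup)
    (h : ∀ x ∈ L, ∃ p : Str, p.length < l ∧ E x ∈ f p) : L.length < 2 ^ l := by
  classical
  choose! P hP1 hP2 using h
  have hinj : ∀ x ∈ L, ∀ y ∈ L, val (P x) = val (P y) → x = y := by
    intro x hx y hy hxy
    have hpp : P x = P y := val_injective hxy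
    have h1 := hP2 x hx
    have h2 := hP2 y hy
    rw [hpp] at h1
    exact hE (Part.mem_unique h1 h2)
  have hlt : ∀ x ∈ L, val (P x) < 2 ^ l - 1 := by
    intro x hx
    have h1 := val_lt (P x)
    have h2 : 2 ^ ((P x).length + 1) ≤ 2 ^ l :=
      Nat.pow_le_pow_right (by norm_num) (hP1 x hx)
    omega
  have hcard : L.toFinset.card ≤ (Finset.range (2 ^ l - 1)).card := by
    refine Finset.card_le_card_of_injOn (fun x => val (P x)) ?_ ?_
    · intro x hx
      simp only [Finset.coe_range, Set.mem_Iio]
      exact hlt x (by simpa using hx)
    · intro x hx y hy hxy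
      exact hinj x (by simpa using hx) y (by simpa using hy) hxy
  rw [List.toFinset_card_of_nodup hnd, Finset.card_range] at hcard
  have : 0 < 2 ^ l := by positivity
  omega

end Pool.Agent.J6H86.OracleSim
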