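import Pool.Agent.J6H86.OracleSim.Strings
import Pool.Agent.J6H86.OracleSim.Search

set_option autoImplicit false

/-!
# Predicates recursively enumerable in an oracle
-/

namespace Pool.Agent.J6H86.OracleSim

open Encodable Primrec

/-- `P` is recursively enumerable in `X`. -/
def XRE (X : ℕ → Bool) {α : Type} [Primcodable α] (P : α → Prop) : Prop :=
  ∃ R : List Bool → α → Prop, PrimrecRel R ∧ (∀ σ τ a, σ <+: τ → R σ a → R τ a) ∧
    ∀ a, P a ↔ ∃ t, R (pre X t) a

variable {X : ℕ → Bool} {α β : Type} [Primcodable α] [Primcodable β]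

lemma XRE.of_iff {P Q : α → Prop} (hP : XRE X P) (h : ∀ a, P a ↔ Q a) : XRE X Q := by
  have : P = Q := funext fun a => propext (h a)
  exact this ▸ hP

lemma XRE.of_primrec {P : α → Prop} (hP : PrimrecPred P) : XRE X P := by
  refine ⟨fun _ a => P a, ?_, ?_, ?_⟩
  · exact hP.comp (f := fun z : List Bool × α => z.2) Primrec.snd
  · intro σ τ a _ h; exact h
  · intro a; simp

lemma XRE.comp {P : β → Prop} (hP : XRE X P) {f : α → β} (hf : Primrec f) :
    XRE X (fun a => P (f a)) := by
  obtain ⟨R, h1, h2, h3⟩ := hP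
  refine ⟨fun σ a => R σ (f a), ?_, fun σ τ a h => h2 σ τ (f a) h, fun a => h3 (f a)⟩
  exact h1.comp (f := fun z : List Bool × α => z.1) (g := fun z => f z.2) Primrec.fst
    (hf.comp Primrec.snd)

lemma XRE.and {P Q : α → Prop} (hP : XRE X P) (hQ : XRE X Q) : XRE X (fun a => P a ∧ Q a) := by
  obtain ⟨R, h1, h2, h3⟩ := hP
  obtain ⟨S, k1, k2, k3⟩ := hQ
  refine ⟨fun σ a => R σ a ∧ S σ a, ?_, ?_, ?_⟩
  · exact PrimrecPred.and h1 k1
  · intro σ τ a h hh; exact ⟨h2 σ τ a h hh.1, k2 σ τ a h hh.2⟩
  · intro a
    constructor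
    · rintro ⟨hp, hq⟩
      obtain ⟨t1, ht1⟩ := (h3 a).1 hp
      obtain ⟨t2, ht2⟩ := (k3 a).1 hq
      exact ⟨max t1 t2, h2 _ _ _ (pre_prefix X (le_max_left _ _)) ht1,
        k2 _ _ _ (pre_prefix X (le_max_right _ _)) ht2⟩
    · rintro ⟨t, ht1, ht2⟩
      exact ⟨(h3 a).2 ⟨t, ht1⟩, (k3 a).2 ⟨t, ht2⟩⟩

lemma XRE.exists {P : α × β → Prop} (hP : XRE X P) : XRE X (fun a => ∃ b, P (a, b)) := by
  obtain ⟨R, h1, h2, h3⟩ := hP
  obtain ⟨dR, hR⟩ := h1
  let rb : List Bool → α × β → Bool := fun σ z => @decide _ (dR (σ, z))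
  have hrb : Primrec fun w : List Bool × (α × β) => rb w.1 w.2 := hR
  have hrb' : ∀ σ z, rb σ z = true ↔ R σ z := fun σ z => @decide_eq_true_iff _ (dR (σ, z))
  let S : ℕ → List Bool × α → Prop := fun i w =>
    ((decode i : Option β).map (fun b => rb w.1 (w.2, b))).getD false = true
  have hS : PrimrecRel S := by
    have h4 : Primrec fun u : ℕ × (List Bool × α) =>
        ((decode u.1 : Option β).map (fun b => rb u.2.1 (u.2.2, b))).getD false := by
      refine Primrec.option_getD.comp ?_ (Primrec.const false)
      refine Primrec.option_map (Primrec.decode.comp Primrec.fst) ?_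
      have h5 : Primrec fun u : (ℕ × (List Bool × α)) × β => rb u.1.2.1 (u.1.2.2, u.2) :=
        hrb.comp (Primrec.pair (Primrec.fst.comp (Primrec.snd.comp Primrec.fst))
          (Primrec.pair (Primrec.snd.comp (Primrec.snd.comp Primrec.fst)) Primrec.snd))
      exact h5.to₂
    exact Primrec.eq.comp h4 (Primrec.const true)
  have hSb : ∀ i σ a, S i (σ, a) ↔ ∃ b, (decode i : Option β) = some b ∧ R σ (a, b) := by
    intro i σ a
    simp only [S]
    rcases (decode i : Option β) with _ | b
    · simp
    · simp [hrb']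
  refine ⟨fun σ a => ∃ i ∈ List.range σ.length, S i (σ, a), ?_, ?_, ?_⟩
  · have h6 := PrimrecRel.exists_mem_list hS
    exact h6.comp (f := fun z : List Bool × α => List.range z.1.length) (g := fun z => z)
      (Primrec.list_range.comp (Primrec.list_length.comp Primrec.fst)) Primrec.id
  · rintro σ τ a hst ⟨i, hi, hh⟩
    rw [hSb] at hh
    obtain ⟨b, hb, hr⟩ := hh
    rw [List.mem_range] at hi
    exact ⟨i, List.mem_range.2 (lt_of_lt_of_le hi hst.length_le),
      (hSb _ _ _).2 ⟨b, hb, h2 _ _ _ hst hr⟩⟩
  · intro a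
    constructor
    · rintro ⟨b, hb⟩
      obtain ⟨t, ht⟩ := (h3 (a, b)).1 hb
      refine ⟨max t (encode b + 1), encode b, by simp, ?_⟩
      rw [hSb]
      exact ⟨b, encodek b, h2 _ _ _ (pre_prefix X (le_max_left _ _)) ht⟩
    · rintro ⟨t, i, _, hh⟩
      rw [hSb] at hh
      obtain ⟨b, _, hr⟩ := hh
      exact ⟨b, (h3 (a, b)).2 ⟨t, hr⟩⟩

lemma XRE.forall_mem {P : α × β → Prop} (hP : XRE X P) {l : α → List β} (hl : Primrec l) :
    XRE X (fun a => ∀ b ∈ l a, P (a, b)) := by
  obtain ⟨R, h1, h2, h3⟩ := hP
  refine ⟨fun σ a => ∀ b ∈ l a, R σ (a, b), ?_, ?_, ?_⟩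
  · let S : β → List Bool × α → Prop := fun b w => R w.1 (w.2, b)
    have hS : PrimrecRel S :=
      h1.comp (f := fun u : β × (List Bool × α) => u.2.1) (g := fun u => (u.2.2, u.1))
        (Primrec.fst.comp Primrec.snd)
        (Primrec.pair (Primrec.snd.comp Primrec.snd) Primrec.fst)
    have h4 := PrimrecRel.forall_mem_list hS
    exact h4.comp (f := fun z : List Bool × α => l z.2) (g := fun z => z)
      (hl.comp Primrec.snd) Primrec.id
  · intro σ τ a hst hh b hb
    exact h2 _ _ _ hst (hh b hb)
  · intro a
    constructor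
    · intro hh
      change ∀ b ∈ l a, P (a, b) at hh
      change ∃ t, ∀ b ∈ l a, R (pre X t) (a, b)
      generalize l a = L at hh ⊢
      induction L with
      | nil => exact ⟨0, by simp⟩
      | cons b L ih =>
        obtain ⟨t1, ht1⟩ := ih fun b' hb' => hh b' (List.mem_cons_of_mem _ hb')
        obtain ⟨t2, ht2⟩ := (h3 (a, b)).1 (hh b (List.mem_cons_self))
        refine ⟨max t1 t2, ?_⟩
        intro b' hb'
        rcases List.mem_cons.1 hb' with rfl | hb'
        · exact h2 _ _ _ (pre_prefix X (le_max_right _ _)) ht2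
        · exact h2 _ _ _ (pre_prefix X (le_max_left _ _)) (ht1 b' hb')
    · rintro ⟨t, ht⟩ b hb
      exact (h3 (a, b)).2 ⟨t, ht b hb⟩

lemma XRE.of_recursiveIn {f : α →. β} (hf : RecursiveIn {oracleOf X} f) :
    XRE X (fun z : α × β => z.2 ∈ f z.1) := by
  obtain ⟨G, h1, h2, h3⟩ := exists_computes hf
  refine ⟨fun σ z => G σ (encode z.1) = some (encode z.2), ?_, ?_, ?_⟩
  · exact Primrec.eq.comp (f := fun w : List Bool × (α × β) => G w.1 (encode w.2.1))
      (g := fun w => some (encode w.2.2))
      (h1.comp Primrec.fst (Primrec.encode.comp (Primrec.fst.comp Primrec.snd)))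
      (Primrec.option_some.comp (Primrec.encode.comp (Primrec.snd.comp Primrec.snd)))
  · intro σ τ z hst h; exact h2 _ _ _ _ hst h
  · rintro ⟨a, b⟩
    rw [← h3]
    change b ∈ f a ↔ encode b ∈ Part.bind ((decode (encode a) : Option α) : Part α)
      (fun a => (f a).map encode)
    rw [Part.mem_bind_iff]
    simp only [encodek, Part.mem_map_iff]
    constructor
    · intro hb
      exact ⟨a, by simp, b, hb, rfl⟩
    · rintro ⟨a', ha', b', hb', he⟩
      have : a' = a := by simpa using ha'
      subst this
      rw [encode_injective he] at hb'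
      exact hb'

/-! ### Enumeration without repetitions -/

section enum

variable {γ : Type} [Primcodable γ]

/-- One step of the enumeration: try the event coded by `m`. -/
def accStep (tb : List Bool × ((γ × (ℕ × List α)) × α) → Bool) (σ : List Bool) (w : γ) (m : ℕ)
    (acc : List α) : List α :=
  (Option.casesOn (decode m.unpair.2 : Option α) acc
    (fun x => cond (tb (σ, ((w, (m, acc)), x))) (acc ++ [x]) acc) : List α)

/-- The enumeration after `m` events. -/
def accN (tb : List Bool × ((γ × (ℕ × List α)) × α) → Bool) (σ : List Bool) (w : γ) (m : ℕ) :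
    List α :=
  Nat.rec [] (fun m acc => accStep tb (σ.take m.unpair.1) w m acc) m

lemma primrec_accN {tb : List Bool × ((γ × (ℕ × List α)) × α) → Bool} (htb : Primrec tb) :
    Primrec fun z : List Bool × (γ × ℕ) => accN tb z.1 z.2.1 z.2.2 := by
  unfold accN accStep
  refine Primrec.nat_rec' (f := fun z : List Bool × (γ × ℕ) => z.2.2)
    (g := fun _ => ([] : List α))
    (h := fun z w => (Option.casesOn (decode w.1.unpair.2 : Option α) w.2
      (fun x => cond (tb (z.1.take w.1.unpair.1, ((z.2.1, (w.1, w.2)), x)))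
        (w.2 ++ [x]) w.2) : List α))
    (Primrec.snd.comp Primrec.snd) (Primrec.const _) ?_
  have h : Primrec fun u : (List Bool × (γ × ℕ)) × (ℕ × List α) =>
      (Option.casesOn (decode u.2.1.unpair.2 : Option α) u.2.2
        (fun x => cond (tb (u.1.1.take u.2.1.unpair.1, ((u.1.2.1, (u.2.1, u.2.2)), x)))
          (u.2.2 ++ [x]) u.2.2) : List α) := by
    refine Primrec.option_casesOn (o := fun u : (List Bool × (γ × ℕ)) × (ℕ × List α) =>
      (decode u.2.1.unpair.2 : Option α)) ?_ (Primrec.snd.comp Primrec.snd) ?_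
    · exact Primrec.decode.comp (Primrec.snd.comp (Primrec.unpair.comp
        (Primrec.fst.comp Primrec.snd)))
    · have h2 : Primrec fun v : ((List Bool × (γ × ℕ)) × (ℕ × List α)) × α =>
          cond (tb (v.1.1.1.take v.1.2.1.unpair.1, ((v.1.1.2.1, (v.1.2.1, v.1.2.2)), v.2)))
            (v.1.2.2 ++ [v.2]) v.1.2.2 := by
        have hacc : Primrec fun v : ((List Bool × (γ × ℕ)) × (ℕ × List α)) × α => v.1.2.2 :=
          Primrec.snd.comp (Primrec.snd.comp Primrec.fst)
        have hm : Primrec fun v : ((List Bool × (γ × ℕ)) × (ℕ × List α)) × α => v.1.2.1 :=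
          Primrec.fst.comp (Primrec.snd.comp Primrec.fst)
        refine Primrec.cond (htb.comp ?_) ?_ hacc
        · refine Primrec.pair ?_ (Primrec.pair (Primrec.pair ?_ (Primrec.pair hm hacc))
            Primrec.snd)
          · exact Primrec.list_take.comp (Primrec.fst.comp (Primrec.unpair.comp hm))
              (Primrec.fst.comp (Primrec.fst.comp Primrec.fst))
          · exact Primrec.fst.comp (Primrec.snd.comp (Primrec.fst.comp Primrec.fst))
        · exact Primrec.list_append.comp hacc (Primrec.list_cons.comp Primrec.snd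
            (Primrec.const []))
      exact h2.to₂
  exact h.to₂

end enum

/-- **Enumeration bound.** If `x` is one of at most `N` objects satisfying a relation that is
recursively enumerable in `X` (with parameter `q` and condition `y`), then its code has
`X`-complexity at most `log N` plus the cost of the parameter. -/
theorem enum_bound {V : Str × Str →. Str} (hV : IsOptimalIn X V) {γ : Type} [Primcodable γ]
    {R : (γ × Str) × α → Prop} (hR : XRE X R) {E : α → Str} (hE : Primrec E) :
    ∃ c : ℕ, ∀ (q : γ) (y : Str) (x : α) (N : ℕ), R ((q, y), x) →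
      (∀ L : List α, L.Nodup → (∀ x' ∈ L, R ((q, y), x')) → L.length ≤ N) →
      ∃ p : Str, p.length ≤ Nat.log 2 N + 2 * Nat.log 2 (encode q + 1) + c ∧
        E x ∈ V (p, y) := by
  classical
  obtain ⟨r, r1, r2, r3⟩ := hR
  -- the test
  let T : List Bool × (((γ × Str) × (ℕ × List α)) × α) → Prop := fun u =>
    r u.1 (u.2.1.1, u.2.2) ∧ ¬ ∃ a ∈ u.2.1.2.2, a = u.2.2
  have hT : PrimrecPred T := by
    refine PrimrecPred.and ?_ (PrimrecPred.not ?_)
    · exact r1.comp (f := fun u : List Bool × (((γ × Str) × (ℕ × List α)) × α) => u.1)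
        (g := fun u => (u.2.1.1, u.2.2)) Primrec.fst
        (Primrec.pair (Primrec.fst.comp (Primrec.fst.comp Primrec.snd))
          (Primrec.snd.comp Primrec.snd))
    · have h4 := PrimrecRel.exists_mem_list (R := fun a b : α => a = b) Primrec.eq
      exact h4.comp (f := fun u : List Bool × (((γ × Str) × (ℕ × List α)) × α) => u.2.1.2.2)
        (g := fun u => u.2.2) (Primrec.snd.comp (Primrec.snd.comp (Primrec.fst.comp Primrec.snd)))
        (Primrec.snd.comp Primrec.snd)
  obtain ⟨dT, hTb⟩ := hT
  let tb : List Bool × (((γ × Str) × (ℕ × List α)) × α) → Bool := fun u => @decide _ (dT u)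
  have htb : Primrec tb := hTb
  have htbiff : ∀ u, tb u = true ↔ T u := fun u => @decide_eq_true_iff _ (dT u)
  -- the limiting enumeration
  let A : (γ × Str) → ℕ → List α := fun w m =>
    Nat.rec [] (fun m acc => accStep tb (pre X m.unpair.1) w m acc) m
  have hA0 : ∀ w, A w 0 = [] := fun w => rfl
  have hAs : ∀ w m, A w (m + 1) = accStep tb (pre X m.unpair.1) w m (A w m) := fun w m => rfl
  have hAacc : ∀ w t m, m ≤ t → accN tb (pre X t) w m = A w m := by
    intro w t m
    induction m with
    | zero => intro _; rfl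
    | succ m ih =>
      intro hm
      have h1 : accN tb (pre X t) w (m + 1) =
          accStep tb ((pre X t).take m.unpair.1) w m (accN tb (pre X t) w m) := rfl
      rw [h1, ih (by omega), hAs, pre_take X (le_trans (Nat.unpair_left_le m) (by omega))]
  have hstep : ∀ w m, A w (m + 1) = A w m ∨ ∃ x, A w (m + 1) = A w m ++ [x] ∧
      r (pre X m.unpair.1) (w, x) ∧ x ∉ A w m := by
    intro w m
    rw [hAs, accStep]
    rcases (decode m.unpair.2 : Option α) with _ | x
    · left; rfl
    · rcases hb : tb (pre X m.unpair.1, ((w, (m, A w m)), x)) with _ | _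
      · left; simp [hb]
      · right
        refine ⟨x, by simp [hb], ?_, ?_⟩
        · exact ((htbiff _).1 hb).1
        · intro hx; exact ((htbiff _).1 hb).2 ⟨x, hx, rfl⟩
  have hmono1 : ∀ w m, A w m <+: A w (m + 1) := by
    intro w m
    rcases hstep w m with h | ⟨x, h, _⟩
    · rw [h]
    · rw [h]; exact List.prefix_append _ _
  have hmono : ∀ w m n, m ≤ n → A w m <+: A w n := by
    intro w m n h
    induction n, h using Nat.le_induction with
    | base => exact List.prefix_refl _
    | succ n _ ih => exact ih.trans (hmono1 w n)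
  have hnodup : ∀ w m, (A w m).Nodup := by
    intro w m
    induction m with
    | zero => rw [hA0]; exact List.nodup_nil
    | succ m ih =>
      rcases hstep w m with h | ⟨x, h, _, hx⟩
      · rw [h]; exact ih
      · rw [h, List.nodup_append]
        refine ⟨ih, List.nodup_singleton x, ?_⟩
        intro a ha b hb hab
        rw [List.mem_singleton] at hb
        subst hb hab
        exact hx ha
  have hsound : ∀ w m, ∀ x ∈ A w m, R (w, x) := by
    intro w m
    induction m with
    | zero => intro x hx; rw [hA0] at hx; cases hx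
    | succ m ih =>
      intro x hx
      rcases hstep w m with h | ⟨x', h, hr, _⟩
      · rw [h] at hx; exact ih x hx
      · rw [h, List.mem_append, List.mem_singleton] at hx
        rcases hx with hx | rfl
        · exact ih x hx
        · exact (r3 _).2 ⟨_, hr⟩
  have hcomplete : ∀ w x, R (w, x) → ∃ m, x ∈ A w m := by
    intro w x hx
    obtain ⟨t, ht⟩ := (r3 _).1 hx
    rcases Classical.em (x ∈ A w (Nat.pair t (encode x))) with hmem | hmem
    · exact ⟨_, hmem⟩
    · refine ⟨Nat.pair t (encode x) + 1, ?_⟩
      rw [hAs, accStep]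
      simp only [Nat.unpair_pair, encodek]
      have hb : tb (pre X t, ((w, (Nat.pair t (encode x), A w (Nat.pair t (encode x)))), x))
          = true := by
        rw [htbiff]
        refine ⟨ht, ?_⟩
        rintro ⟨a, ha, rfl⟩
        exact hmem ha
      simp [hb]
  -- the decompressor
  let cand : List Bool → Str × Str → ℕ → Option Str := fun σ z v =>
    (decode v : Option (γ × ℕ)).bind fun u =>
      cond (@decide (encP u.1 u.2 = z.1) (instDecidableEqList _ _))
        (((accN tb σ (u.1, z.2) σ.length)[u.2]?).map E) none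
  let g : List Bool → Str × Str → Option Str := fun σ z =>
    ((List.range σ.length).filterMap (cand σ z)).head?
  have hg : Primrec₂ g := by
    have h5 : Primrec fun w : List Bool × (Str × Str) =>
        (List.range w.1.length).filterMap (cand w.1 w.2) := by
      refine Primrec.listFilterMap (f := fun w : List Bool × (Str × Str) =>
        List.range w.1.length) (g := fun w v => cand w.1 w.2 v)
        (Primrec.list_range.comp (Primrec.list_length.comp Primrec.fst)) ?_
      have h6 : Primrec fun u : (List Bool × (Str × Str)) × ℕ => cand u.1.1 u.1.2 u.2 := by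
        refine Primrec.option_bind (Primrec.decode.comp Primrec.snd) ?_
        have h7 : Primrec fun s : ((List Bool × (Str × Str)) × ℕ) × (γ × ℕ) =>
            cond (@decide (encP s.2.1 s.2.2 = s.1.1.2.1) (instDecidableEqList _ _))
              (((accN tb s.1.1.1 (s.2.1, s.1.1.2.2) s.1.1.1.length)[s.2.2]?).map E) none := by
          have hσ : Primrec fun s : ((List Bool × (Str × Str)) × ℕ) × (γ × ℕ) => s.1.1.1 :=
            Primrec.fst.comp (Primrec.fst.comp Primrec.fst)
          refine Primrec.cond ?_ ?_ (Primrec.const none)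
          · exact PrimrecPred.decide (Primrec.eq.comp (primrec_encP.comp Primrec.snd)
              (Primrec.fst.comp (Primrec.snd.comp (Primrec.fst.comp Primrec.fst))))
          · refine Primrec.option_map ?_ (hE.comp Primrec.snd).to₂
            refine Primrec.list_getElem?.comp ?_ (Primrec.snd.comp Primrec.snd)
            have h8 := primrec_accN (α := α) (γ := γ × Str) htb
            exact h8.comp (Primrec.pair hσ (Primrec.pair (Primrec.pair
              (Primrec.fst.comp Primrec.snd) (Primrec.snd.comp (Primrec.snd.comp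
                (Primrec.fst.comp Primrec.fst)))) (Primrec.list_length.comp hσ)))
        exact h7.to₂
      exact h6.to₂
    exact (Primrec.list_head?.comp h5).to₂
  obtain ⟨c, hc⟩ := hV.2 (fun z => searchFn X g z) (searchFn_recursiveIn X hg)
  refine ⟨c + 1, ?_⟩
  intro q y x N hx hN
  obtain ⟨m0, hm0⟩ := hcomplete (q, y) x hx
  obtain ⟨j, hj, hjx⟩ := List.getElem_of_mem hm0
  have hjN : j < N := by
    have h1 := hN (A (q, y) m0) (hnodup _ _) (hsound _ _)
    omega
  have hget : ∀ m x', (A (q, y) m)[j]? = some x' → x' = x := by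
    intro m x' hx'
    have e1 : (A (q, y) (max m m0))[j]? = some x' := by
      obtain ⟨s, hs⟩ := hmono (q, y) m (max m m0) (le_max_left _ _)
      rw [← hs]
      have hlt : j < (A (q, y) m).length := by
        by_contra hcon
        rw [List.getElem?_eq_none (by omega)] at hx'
        cases hx'
      rw [List.getElem?_append_left hlt]
      exact hx'
    have e2 : (A (q, y) (max m m0))[j]? = some x := by
      obtain ⟨s, hs⟩ := hmono (q, y) m0 (max m m0) (le_max_right _ _)
      rw [← hs, List.getElem?_append_left hj, List.getElem?_eq_getElem hj, hjx]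
    rw [e1] at e2
    exact Option.some.inj e2
  have hval : ∀ t z, g (pre X t) (encP q j, y) = some z → z = E x := by
    intro t z hz
    have hmem : z ∈ (List.range (pre X t).length).filterMap (cand (pre X t) (encP q j, y)) :=
      List.mem_of_mem_head? hz
    rw [List.mem_filterMap] at hmem
    obtain ⟨v, _, hv⟩ := hmem
    simp only [cand, Option.bind_eq_some_iff] at hv
    obtain ⟨u, _, hu⟩ := hv
    by_cases he : encP u.1 u.2 = encP q j
    · obtain ⟨h1, h2⟩ := encP_inj he
      simp only [he, decide_true, cond_true, Option.map_eq_some_iff] at hu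
      obtain ⟨x', hx', rfl⟩ := hu
      rw [h1, h2, hAacc _ _ _ (by simp)] at hx'
      rw [hget _ _ hx']
    · simp [he] at hu
  have hdef : ∃ t, (g (pre X t) (encP q j, y)).isSome := by
    refine ⟨max m0 (encode (q, j) + 1), ?_⟩
    rw [List.isSome_head?]
    refine List.ne_nil_of_mem (a := E x) ?_
    rw [List.mem_filterMap]
    refine ⟨encode (q, j), by simp, ?_⟩
    simp only [cand, encodek, Option.bind_some, decide_true, cond_true]
    rw [hAacc _ _ _ (by simp)]
    have e2 : (A (q, y) (pre X (max m0 (encode (q, j) + 1))).length)[j]? = some x := by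
      obtain ⟨s, hs⟩ := hmono (q, y) m0 (pre X (max m0 (encode (q, j) + 1))).length (by simp)
      rw [← hs, List.getElem?_append_left hj, List.getElem?_eq_getElem hj, hjx]
    rw [e2]; rfl
  have hsearch : E x ∈ searchFn X g (encP q j, y) := by
    have hdom : (searchFn X g (encP q j, y)).Dom := by
      unfold searchFn
      rw [Nat.rfindOpt_dom]
      obtain ⟨t, ht⟩ := hdef
      obtain ⟨z, hz⟩ := Option.isSome_iff_exists.1 ht
      exact ⟨t, z, hz⟩
    have hmem := Part.get_mem hdom
    obtain ⟨t, ht⟩ := Nat.rfindOpt_spec hmem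
    rw [hval t _ ht] at hmem
    exact hmem
  obtain ⟨p', hp', hp''⟩ := hc _ _ _ hsearch
  refine ⟨p', ?_, hp''⟩
  have h1 := encP_length q j
  have h2 : Nat.log 2 (j + 1) ≤ Nat.log 2 N := Nat.log_mono_right hjN
  omega

end Pool.Agent.J6H86.OracleSim
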